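import Mathlib
import Pool.Agent.helper89.Segre2.StripInv

set_option autoImplicit false

/-!
# The two inductions in a strip: independence and emptiness
-/

namespace Pool.Agent.helper89.Segre

variable {K : Type} [Field K]

lemma Sge_ge_of_mem {L : Multiset ℕ} {m : ℕ} (h : m ∈ L) : kk m ≤ Sge L m := by
  obtain ⟨L', rfl⟩ := Multiset.exists_cons_of_mem h
  rw [Sge_cons_of_le le_rfl]; omega

lemma stuck_numbers (μ : ℕ) (hμ : 1 ≤ μ) :
    μ.choose 2 + (2 * μ).choose 2 ≤ kk μ + 2 * μ * (μ - 1) := by
  have hkμ := two_mul_kk μ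
  have hc1 := two_mul_choose_two μ
  have hc2 := two_mul_choose_two (2 * μ)
  have h2μ : 2 * μ * (μ - 1) + 2 * μ = 2 * μ * μ := by
    obtain ⟨t, rfl⟩ := Nat.exists_eq_add_of_le' hμ
    simp only [Nat.add_sub_cancel]; ring
  have hq : (2 * μ) * (2 * μ) = 4 * (μ * μ) := by ring
  have hq2 : 2 * μ * μ = 2 * (μ * μ) := by ring
  omega

/-- Independence in a strip: every point of multiplicity `ν` comes early enough. -/
theorem good_mainH [CharZero K] (H d : ℕ) : ∀ (s : ℕ) (M : ℕ) (y : ℕ → ℕ) (L : Multiset ℕ),
    Multiset.card L ≤ s → InvH H d M y → (∀ m ∈ L, m ≤ M) → (∀ m ∈ L, m ≤ H) →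
    (∀ ν ∈ L, 1 ≤ ν → Sge L ν + 2 * ν * (ν - 1) < (box (d + 1) y).card) →
    Good K (box (d + 1) y) L (L.map kk).sum := by
  classical
  intro s
  induction s with
  | zero =>
    intro M y L hs _ _ _ _
    have : L = 0 := Multiset.card_eq_zero.mp (by omega)
    subst this
    simpa using good_zero K (box (d + 1) y) 0
  | succ s ih =>
    intro M y L hs hinv hM hH hcond
    by_cases hL0 : L = 0
    · subst hL0; simpa using good_zero K (box (d + 1) y) 0
    -- the largest multiplicity
    obtain ⟨μ, hμL, hμmax⟩ : ∃ μ ∈ L, ∀ m ∈ L, m ≤ μ := by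
      have hne : L.toFinset.Nonempty := by
        rw [Finset.nonempty_iff_ne_empty]; intro h; exact hL0 (Multiset.toFinset_eq_empty.mp h)
      refine ⟨L.toFinset.max' hne, Multiset.mem_toFinset.mp (Finset.max'_mem _ _), ?_⟩
      intro m hm
      exact Finset.le_max' _ _ (Multiset.mem_toFinset.mpr hm)
    obtain ⟨L', rfl⟩ := Multiset.exists_cons_of_mem hμL
    simp only [Multiset.card_cons] at hs
    have hL'μ : ∀ m ∈ L', m ≤ μ := fun m hm => hμmax m (Multiset.mem_cons_of_mem hm)
    rcases Nat.eq_zero_or_pos μ with rfl | hμ0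
    · have h1 := (ih M y L' (by omega) hinv (fun m hm => hM m (Multiset.mem_cons_of_mem hm))
        (fun m hm => hH m (Multiset.mem_cons_of_mem hm)) (by
          intro ν hν h1
          exact absurd (hL'μ ν hν) (by omega))).cons 0
      simpa [kk] using h1
    have hμM : μ ≤ M := hM μ (Multiset.mem_cons_self _ _)
    have hμH : μ ≤ H := hH μ (Multiset.mem_cons_self _ _)
    have hcμ := hcond μ (Multiset.mem_cons_self _ _) hμ0
    rw [Sge_cons_of_le le_rfl] at hcμ
    have hkμ := two_mul_kk μ
    have hkpos : 0 < kk μ := Nat.choose_pos (by omega)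
    have hDpos : 0 < (box (d + 1) y).card := by omega
    have hne : ∃ b, 0 < y b := by
      obtain ⟨e, he⟩ := Finset.card_pos.mp hDpos
      rw [mem_box] at he
      exact ⟨e.2, by omega⟩
    obtain ⟨j0, p, hj0p, hpd, hlow, hpos, hwhole, hp⟩ := hinv.exists_pivot hμM hne
    by_cases hmove : μ ≤ y p ∧ 2 * μ ≤ d + 1 - p
    · -- the move is possible
      obtain ⟨c, r, hslice, hinv'⟩ := hinv.move (by omega) hμM hj0p hlow hpos hwhole hmove.1 hmove.2
      have hcard : (box (d + 1) y).card = (box (d + 1) (fun b => y b - c b)).card + kk μ := by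
        rw [card_box, card_box, kk, ← hslice.sum, ← Finset.sum_add_distrib]
        apply Finset.sum_congr rfl
        intro b hb
        have := hslice.le b (Finset.mem_range.mp hb)
        omega
      have h1 := ih μ (fun b => y b - c b) L' (by omega) hinv' hL'μ
        (fun m hm => hH m (Multiset.mem_cons_of_mem hm)) (by
        intro ν hν h2
        have h3 := hcond ν (Multiset.mem_cons_of_mem hν) h2
        rw [Sge_cons_of_le (hL'μ ν hν)] at h3
        omega)
      have h2 := hslice.good h1
      rw [Multiset.map_cons, Multiset.sum_cons]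
      exact h2
    · -- stuck: impossible
      exfalso
      have hshort : d + 1 - p < 2 * μ := by
        rcases hp with hp | hp
        · by_contra hcon
          exact hmove ⟨hp, by omega⟩
        · omega
      have hstuck := stuck_bound (fun b => (hinv.bd b).trans (min_le_right _ _)) hj0p hpd hlow
        hwhole hshort
      have hnum := stuck_numbers μ hμ0
      omega

/-- Emptiness in a strip: five points in reserve, which are at least as big as all the points that
come too late. -/
theorem good_emptyH [CharZero K] (H d a1 a2 a3 a4 a5 : ℕ) :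
    ∀ (s : ℕ) (M : ℕ) (y : ℕ → ℕ) (L : Multiset ℕ),
    Multiset.card L ≤ s → InvH H d M y → (∀ m ∈ L, m ≤ M) → (∀ m ∈ L, m ≤ H) →
    (∀ m ∈ L, (m ≤ a1 ∧ m ≤ a2 ∧ m ≤ a3 ∧ m ≤ a4 ∧ m ≤ a5) ∨
      Sge L m + 2 * m * (m - 1) < (box (d + 1) y).card) →
    (box (d + 1) y).card ≤ (L.map kk).sum →
    Good K (box (d + 1) y) ({a1, a2, a3, a4, a5} + L) (box (d + 1) y).card := by
  classical
  intro s
  induction s with
  | zero =>
    intro M y L hs _ _ _ _ hsum
    have : L = 0 := Multiset.card_eq_zero.mp (by omega)
    subst this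
    have h0 : (box (d + 1) y).card = 0 := by simpa using hsum
    rw [h0]; exact good_zero K _ _
  | succ s ih =>
    intro M y L hs hinv hM hH ha hsum
    rcases Nat.eq_zero_or_pos (box (d + 1) y).card with hD0 | hDpos
    · rw [hD0]; exact good_zero K _ _
    have hL0 : L ≠ 0 := by
      rintro rfl
      rw [Multiset.map_zero, Multiset.sum_zero] at hsum
      omega
    obtain ⟨μ, hμL, hμmax⟩ : ∃ μ ∈ L, ∀ m ∈ L, m ≤ μ := by
      have hne : L.toFinset.Nonempty := by
        rw [Finset.nonempty_iff_ne_empty]; intro h; exact hL0 (Multiset.toFinset_eq_empty.mp h)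
      refine ⟨L.toFinset.max' hne, Multiset.mem_toFinset.mp (Finset.max'_mem _ _), ?_⟩
      intro m hm
      exact Finset.le_max' _ _ (Multiset.mem_toFinset.mpr hm)
    obtain ⟨L', rfl⟩ := Multiset.exists_cons_of_mem hμL
    have hL'μ : ∀ m ∈ L', m ≤ μ := fun m hm => hμmax m (Multiset.mem_cons_of_mem hm)
    have hμM : μ ≤ M := hM μ (Multiset.mem_cons_self _ _)
    have hμH : μ ≤ H := hH μ (Multiset.mem_cons_self _ _)
    rcases Nat.eq_zero_or_pos μ with rfl | hμ0
    · exfalso
      have : ((0 ::ₘ L').map kk).sum = 0 := by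
        apply Multiset.sum_eq_zero
        intro x hx
        obtain ⟨m, hm, rfl⟩ := Multiset.mem_map.mp hx
        have := hμmax m hm
        have : m = 0 := by omega
        subst this; rfl
      omega
    have hne : ∃ b, 0 < y b := by
      obtain ⟨e, he⟩ := Finset.card_pos.mp hDpos
      rw [mem_box] at he
      exact ⟨e.2, by omega⟩
    obtain ⟨j0, p, hj0p, hpd, hlow, hpos, hwhole, hp⟩ := hinv.exists_pivot hμM hne
    simp only [Multiset.card_cons] at hs
    by_cases hmove : μ ≤ y p ∧ 2 * μ ≤ d + 1 - p
    · obtain ⟨c, r, hslice, hinv'⟩ := hinv.move hμ0 hμM hj0p hlow hpos hwhole hmove.1 hmove.2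
      have hcard : (box (d + 1) y).card = (box (d + 1) (fun b => y b - c b)).card + kk μ := by
        rw [card_box, card_box, kk, ← hslice.sum, ← Finset.sum_add_distrib]
        apply Finset.sum_congr rfl
        intro b hb
        have := hslice.le b (Finset.mem_range.mp hb)
        omega
      rw [Multiset.map_cons, Multiset.sum_cons] at hsum
      have h1 := ih μ (fun b => y b - c b) L' (by omega) hinv' hL'μ
        (fun m hm => hH m (Multiset.mem_cons_of_mem hm))
        (fun m hm => by
          rcases ha m (Multiset.mem_cons_of_mem hm) with h3 | h3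
          · exact Or.inl h3
          · right
            rw [Sge_cons_of_le (hL'μ m hm)] at h3
            omega) (by omega)
      have h2 := hslice.good h1
      rw [← Multiset.add_cons] at h2
      have h3 : (μ + 1).choose 2 + (box (d + 1) fun b => y b - c b).card =
          (box (d + 1) y).card := by
        rw [hcard]
        change kk μ + _ = _
        omega
      rwa [h3] at h2
    · have hshort : d + 1 - p < 2 * μ := by
        rcases hp with hp | hp
        · by_contra hcon
          exact hmove ⟨hp, by omega⟩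
        · omega
      have hbd : ∀ b, y b ≤ d + 1 - b := fun b => (hinv.bd b).trans (min_le_right _ _)
      rcases ha μ (Multiset.mem_cons_self _ _) with ha' | ha'
      · have h5 := (good_five (K := K) hbd hlow hwhole hshort).raise_five ha'.1 ha'.2.1
          ha'.2.2.1 ha'.2.2.2.1 ha'.2.2.2.2
        have h6 := h5.add (μ ::ₘ L')
        rwa [add_comm (μ ::ₘ L')] at h6
      · exfalso
        have hstuck := stuck_bound hbd hj0p hpd hlow hwhole hshort
        have hnum := stuck_numbers μ hμ0
        rw [Sge_cons_of_le le_rfl] at ha'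
        omega

end Pool.Agent.helper89.Segre
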