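import Mathlib
import Pool.Agent.helper89.Segre.Final

set_option autoImplicit false

/-!
# Kernels of the conditions and ranks
-/

namespace Pool.Agent.helper89.Segre

/-- Polynomials with exponents in `D` (given by their coefficients) which satisfy the conditions
`Phi L`. -/
def Kr (D : Finset (ℕ × ℕ)) (L : Multiset ((ℂ × ℂ) × ℕ)) : Submodule ℂ (ℕ × ℕ → ℂ) where
  carrier := {c | (∀ e ∉ D, c e = 0) ∧ ∀ φ ∈ Phi L, ∑ e ∈ D, c e * φ e = 0}
  add_mem' := by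
    rintro a b ⟨ha1, ha2⟩ ⟨hb1, hb2⟩
    refine ⟨fun e he => by simp [ha1 e he, hb1 e he], fun φ hφ => ?_⟩
    simp only [Pi.add_apply, add_mul, Finset.sum_add_distrib, ha2 φ hφ, hb2 φ hφ, add_zero]
  zero_mem' := ⟨fun _ _ => rfl, fun φ _ => by simp⟩
  smul_mem' := by
    rintro a c ⟨h1, h2⟩
    refine ⟨fun e he => by simp [h1 e he], fun φ hφ => ?_⟩
    simp only [Pi.smul_apply, smul_eq_mul, mul_assoc, ← Finset.mul_sum, h2 φ hφ, mul_zero]

lemma mem_Kr {D : Finset (ℕ × ℕ)} {L : Multiset ((ℂ × ℂ) × ℕ)} {c : ℕ × ℕ → ℂ} :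
    c ∈ Kr D L ↔ (∀ e ∉ D, c e = 0) ∧ ∀ φ ∈ Phi L, ∑ e ∈ D, c e * φ e = 0 := Iff.rfl

/-- It suffices to check the generators. -/
lemma mem_Kr_iff {D : Finset (ℕ × ℕ)} {L : Multiset ((ℂ × ℂ) × ℕ)} {c : ℕ × ℕ → ℂ} :
    c ∈ Kr D L ↔ (∀ e ∉ D, c e = 0) ∧ ∀ x ∈ L, ∀ ij ∈ idx x.2,
      ∑ e ∈ D, c e * (pw x.1 e * ((e.1.choose ij.1 : ℕ) : ℂ) * ((e.2.choose ij.2 : ℕ) : ℂ)) = 0 := by
  rw [mem_Kr]
  constructor
  · rintro ⟨h1, h2⟩
    exact ⟨h1, fun x hx ij hij => h2 _ (Submodule.subset_span ⟨x, hx, ij, hij, rfl⟩)⟩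
  · rintro ⟨h1, h2⟩
    refine ⟨h1, fun φ hφ => ?_⟩
    induction hφ using Submodule.span_induction with
    | mem φ hφ =>
      obtain ⟨x, hx, ij, hij, rfl⟩ := hφ
      exact h2 x hx ij hij
    | zero => simp
    | add φ ψ _ _ h3 h4 =>
      simp only [Pi.add_apply, mul_add, Finset.sum_add_distrib, h3, h4, add_zero]
    | smul a φ _ h3 =>
      simp only [Pi.smul_apply, smul_eq_mul]
      have : ∀ e, c e * (a * φ e) = a * (c e * φ e) := fun e => by ring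
      simp only [this, ← Finset.mul_sum, h3, mul_zero]

/-- restriction to `D` -/
def resD (D : Finset (ℕ × ℕ)) : (ℕ × ℕ → ℂ) →ₗ[ℂ] (D → ℂ) :=
  LinearMap.funLeft ℂ ℂ (fun e : D => (e : ℕ × ℕ))

lemma resD_inj (D : Finset (ℕ × ℕ)) (L : Multiset ((ℂ × ℂ) × ℕ)) :
    Function.Injective ((resD D).domRestrict (Kr D L)) := by
  rw [← LinearMap.ker_eq_bot, LinearMap.ker_eq_bot']
  rintro ⟨c, hc⟩ h
  ext e
  by_cases he : e ∈ D
  · exact congrFun h ⟨e, he⟩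
  · exact hc.1 e he

instance (D : Finset (ℕ × ℕ)) (L : Multiset ((ℂ × ℂ) × ℕ)) : FiniteDimensional ℂ (Kr D L) :=
  Module.Finite.of_injective _ (resD_inj D L)

/-- the rank bounds the kernel -/
lemma HasRank.finrank_le {D : Finset (ℕ × ℕ)} {L : Multiset ((ℂ × ℂ) × ℕ)} {r : ℕ}
    (h : HasRank D L r) : Module.finrank ℂ (Kr D L) + r ≤ D.card := by
  classical
  obtain ⟨ι, i1, i2, φ, e, h1, h2, h3, h4⟩ := h
  have := finrank_add_le (T := D) (ι := ι) (LinearMap.range ((resD D).domRestrict (Kr D L)))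
    (fun i t => φ i t) (fun i => ⟨e i, h3 i⟩) h4 (by
      rintro _ ⟨⟨c, hc⟩, rfl⟩ i
      have h5 := hc.2 (φ i) (h2 i)
      rw [← Finset.sum_coe_sort D] at h5
      exact h5)
  rw [LinearMap.finrank_range_of_inj (resD_inj D L), h1, Fintype.card_coe] at this
  exact this

lemma Kr_eq_bot_iff {D : Finset (ℕ × ℕ)} {L : Multiset ((ℂ × ℂ) × ℕ)} :
    Kr D L = ⊥ ↔ ∀ c ∈ Kr D L, c = 0 := Submodule.eq_bot_iff _

lemma HasRank.kr_eq_bot {D : Finset (ℕ × ℕ)} {L : Multiset ((ℂ × ℂ) × ℕ)}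
    (h : HasRank D L D.card) : Kr D L = ⊥ := by
  have := h.finrank_le
  exact Submodule.finrank_eq_zero.mp (by omega)

lemma hasRank_of_kr {D : Finset (ℕ × ℕ)} {L : Multiset ((ℂ × ℂ) × ℕ)}
    (h : Kr D L = ⊥) : HasRank D L D.card := by
  classical
  apply hasRank_of_injective
  intro c hc e he
  have h1 : (fun e => if e ∈ D then c e else 0) ∈ Kr D L := by
    refine ⟨fun e he => if_neg he, fun φ hφ => ?_⟩
    rw [← hc φ hφ]
    apply Finset.sum_congr rfl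
    intro e he
    simp only
    rw [if_pos he]
  rw [h, Submodule.mem_bot] at h1
  have := congrFun h1 e
  simpa [he] using this

lemma Kr_mono {D D' : Finset (ℕ × ℕ)} {L : Multiset ((ℂ × ℂ) × ℕ)} (h : D' ⊆ D) :
    Kr D' L ≤ Kr D L := by
  rintro c ⟨h1, h2⟩
  refine ⟨fun e he => h1 e (fun h3 => he (h h3)), fun φ hφ => ?_⟩
  rw [← h2 φ hφ]
  symm
  apply Finset.sum_subset h
  intro e _ he
  rw [h1 e he, zero_mul]

/-- Removing exponents until the kernel is zero. -/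
lemma exists_sub (L : Multiset ((ℂ × ℂ) × ℕ)) : ∀ (k : ℕ) (D : Finset (ℕ × ℕ)),
    Module.finrank ℂ (Kr D L) ≤ k → ∃ D' ⊆ D, D.card ≤ D'.card + k ∧ Kr D' L = ⊥ := by
  classical
  intro k
  induction k with
  | zero =>
    intro D h
    exact ⟨D, le_rfl, le_rfl, Submodule.finrank_eq_zero.mp (by omega)⟩
  | succ k ih =>
    intro D h
    by_cases h0 : Kr D L = ⊥
    · exact ⟨D, le_rfl, by omega, h0⟩
    obtain ⟨c, hc, hc0⟩ := (Submodule.ne_bot_iff _).mp h0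
    obtain ⟨e0, he0⟩ : ∃ e, c e ≠ 0 := by
      by_contra hcon
      exact hc0 (funext fun e => by
        by_contra h
        exact hcon ⟨e, h⟩)
    have he0D : e0 ∈ D := by
      by_contra hcon
      exact he0 (hc.1 e0 hcon)
    have hlt : Kr (D.erase e0) L < Kr D L := by
      refine lt_of_le_of_ne (Kr_mono (Finset.erase_subset _ _)) ?_
      intro heq
      rw [← heq] at hc
      exact he0 (hc.1 e0 (by simp))
    have h1 := Submodule.finrank_lt_finrank_of_lt hlt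
    obtain ⟨D', h2, h3, h4⟩ := ih (D.erase e0) (by omega)
    refine ⟨D', h2.trans (Finset.erase_subset _ _), ?_, h4⟩
    rw [Finset.card_erase_of_mem he0D] at h3
    omega

lemma hasRank_of_finrank {D : Finset (ℕ × ℕ)} {L : Multiset ((ℂ × ℂ) × ℕ)} {r : ℕ}
    (h : Module.finrank ℂ (Kr D L) + r ≤ D.card) : HasRank D L r := by
  obtain ⟨D', h1, h2, h3⟩ := exists_sub L (Module.finrank ℂ (Kr D L)) D le_rfl
  obtain ⟨D'', h4, h5⟩ := Finset.exists_subset_card_eq (show r ≤ D'.card by omega)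
  have h6 : Kr D'' L = ⊥ := by
    rw [eq_bot_iff, ← h3]
    exact Kr_mono h4
  have := hasRank_of_kr h6
  rw [h5] at this
  exact this.mono (h4.trans h1) le_rfl

lemma hasRank_iff {D : Finset (ℕ × ℕ)} {L : Multiset ((ℂ × ℂ) × ℕ)} {r : ℕ} :
    HasRank D L r ↔ Module.finrank ℂ (Kr D L) + r ≤ D.card :=
  ⟨HasRank.finrank_le, hasRank_of_finrank⟩

lemma HasRank.of_subset {D D' : Finset (ℕ × ℕ)} {L : Multiset ((ℂ × ℂ) × ℕ)}
    (h : HasRank D L D.card) (hD : D' ⊆ D) : HasRank D' L D'.card := by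
  apply hasRank_of_kr
  rw [eq_bot_iff, ← h.kr_eq_bot]
  exact Kr_mono hD

lemma Good.of_subset {D D' : Finset (ℕ × ℕ)} {ms : Multiset ℕ}
    (h : Good ℂ D ms D.card) (hD : D' ⊆ D) : Good ℂ D' ms D'.card := by
  obtain ⟨L, h1, h2, h3⟩ := h
  exact ⟨L, h1, h2, h3.of_subset hD⟩

lemma HasRank.le {D : Finset (ℕ × ℕ)} {L : Multiset ((ℂ × ℂ) × ℕ)} {r r' : ℕ}
    (h : HasRank D L r) (hr : r' ≤ r) : HasRank D L r' := by
  rw [hasRank_iff] at h ⊢; omega

end Pool.Agent.helper89.Segre
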