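import Mathlib
import Pool.Agent.helper89.Segre2.Kernel

set_option autoImplicit false

/-!
# General points have both of two ranks
-/

namespace Pool.Agent.helper89.Segre

open Polynomial

lemma exists_match {α : Type} : ∀ (ms : Multiset ℕ) (L1 L2 : Multiset (α × ℕ)),
    L1.map Prod.snd = ms → L2.map Prod.snd = ms →
    ∃ T : Multiset (α × α × ℕ), T.map (fun t => (t.1, t.2.2)) = L1 ∧
      T.map (fun t => (t.2.1, t.2.2)) = L2 := by
  classical
  intro ms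
  induction ms using Multiset.induction_on with
  | empty =>
    intro L1 L2 h1 h2
    rw [Multiset.map_eq_zero] at h1 h2
    subst h1 h2
    exact ⟨0, by simp, by simp⟩
  | cons m ms ih =>
    intro L1 L2 h1 h2
    obtain ⟨x, hx, hx2, hx3⟩ := (Multiset.map_eq_cons _ _ _ _).mpr h1
    obtain ⟨z, hz, hz2, hz3⟩ := (Multiset.map_eq_cons _ _ _ _).mpr h2
    obtain ⟨T, hT1, hT2⟩ := ih _ _ hx3 hz3
    refine ⟨(x.1, z.1, m) ::ₘ T, ?_, ?_⟩
    · rw [Multiset.map_cons, hT1]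
      conv_rhs => rw [← Multiset.cons_erase hx]
      congr 1
      rw [← hx2]
    · rw [Multiset.map_cons, hT2]
      conv_rhs => rw [← Multiset.cons_erase hz]
      congr 1
      rw [← hz2]

/-- the point at time `t` on the line joining two points -/
def ptl (t : ℂ) (τ : (ℂ × ℂ) × (ℂ × ℂ) × ℕ) : ℂ × ℂ :=
  (τ.1.1 + t * (τ.2.1.1 - τ.1.1), τ.1.2 + t * (τ.2.1.2 - τ.1.2))

/-- the list of points at time `t` -/
def Ltl (T : Multiset ((ℂ × ℂ) × (ℂ × ℂ) × ℕ)) (t : ℂ) : Multiset ((ℂ × ℂ) × ℕ) :=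
  T.map fun τ => (ptl t τ, τ.2.2)

/-- coordinate polynomials -/
noncomputable def cp (a b : ℂ) : ℂ[X] := C a + X * C (b - a)

lemma eval_cp (a b t : ℂ) : (cp a b).eval t = a + t * (b - a) := by
  unfold cp; simp

lemma exists_family (T : Multiset ((ℂ × ℂ) × (ℂ × ℂ) × ℕ)) (t0 : ℂ) {φ : ℕ × ℕ → ℂ}
    (hφ : φ ∈ Phi (Ltl T t0)) : ∃ ψ : ℕ × ℕ → ℂ[X], (∀ e, (ψ e).eval t0 = φ e) ∧
      ∀ t, (fun e => (ψ e).eval t) ∈ Phi (Ltl T t) := by
  induction hφ using Submodule.span_induction with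
  | mem φ hφ =>
    obtain ⟨x, hx, ij, hij, rfl⟩ := hφ
    obtain ⟨τ, hτ, rfl⟩ := Multiset.mem_map.mp hx
    refine ⟨fun e => cp τ.1.1 τ.2.1.1 ^ e.1 * cp τ.1.2 τ.2.1.2 ^ e.2 *
      C ((e.1.choose ij.1 : ℕ) : ℂ) * C ((e.2.choose ij.2 : ℕ) : ℂ), ?_, ?_⟩
    · intro e
      simp only [eval_mul, eval_pow, eval_cp, eval_C, pw, ptl]
    · intro t
      apply Submodule.subset_span
      refine ⟨(ptl t τ, τ.2.2), Multiset.mem_map_of_mem _ hτ, ij, hij, ?_⟩
      ext e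
      simp only [eval_mul, eval_pow, eval_cp, eval_C, pw, ptl]
  | zero =>
    refine ⟨0, by simp, fun t => ?_⟩
    have h0 : (fun e => ((0 : ℕ × ℕ → ℂ[X]) e).eval t) = 0 := by ext e; simp
    rw [h0]; exact Submodule.zero_mem _
  | add φ ψ _ _ h1 h2 =>
    obtain ⟨f, hf1, hf2⟩ := h1
    obtain ⟨g, hg1, hg2⟩ := h2
    refine ⟨f + g, fun e => by simp [hf1, hg1], fun t => ?_⟩
    have := Submodule.add_mem _ (hf2 t) (hg2 t)
    convert this using 1
    ext e; simp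
  | smul a φ _ h1 =>
    obtain ⟨f, hf1, hf2⟩ := h1
    refine ⟨fun e => C a * f e, fun e => by simp [hf1], fun t => ?_⟩
    have := Submodule.smul_mem _ a (hf2 t)
    convert this using 1
    ext e; simp

lemma exists_det_poly (T : Multiset ((ℂ × ℂ) × (ℂ × ℂ) × ℕ)) (t0 : ℂ) {D : Finset (ℕ × ℕ)}
    {r : ℕ} (h : HasRank D (Ltl T t0) r) :
    ∃ P : ℂ[X], P.eval t0 ≠ 0 ∧ ∀ t, P.eval t ≠ 0 → HasRank D (Ltl T t) r := by
  classical
  obtain ⟨ι, i1, i2, φ, e, h1, h2, h3, h4⟩ := h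
  have hfam := fun i => exists_family T t0 (h2 i)
  choose ψ hψ1 hψ2 using hfam
  let N : Matrix ι ι ℂ[X] := Matrix.of fun i j => ψ i (e j)
  have hN : ∀ t, N.det.eval t = (Matrix.of fun i j => (ψ i (e j)).eval t).det := by
    intro t
    rw [← Polynomial.coe_evalRingHom, RingHom.map_det]
    rfl
  refine ⟨N.det, ?_, ?_⟩
  · rw [hN]
    have : (Matrix.of fun i j => (ψ i (e j)).eval t0 : Matrix ι ι ℂ) =
        Matrix.of fun i j => φ i (e j) := by
      ext i j; exact hψ1 i (e j)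
    rw [this]; exact h4
  · intro t ht
    rw [hN] at ht
    exact ⟨ι, i1, i2, fun i e => (ψ i e).eval t, e, h1, fun i => hψ2 i t, h3, ht⟩

lemma Good.simult {D1 D2 : Finset (ℕ × ℕ)} {ms : Multiset ℕ} {r1 r2 : ℕ}
    (h1 : Good ℂ D1 ms r1) (h2 : Good ℂ D2 ms r2) :
    ∃ L : Multiset ((ℂ × ℂ) × ℕ), L.map Prod.snd = ms ∧ (∀ x ∈ L, x.1.1 ≠ 0 ∧ x.1.2 ≠ 0) ∧
      HasRank D1 L r1 ∧ HasRank D2 L r2 := by
  classical
  obtain ⟨L1, a1, a2, a3⟩ := h1
  obtain ⟨L2, b1, b2, b3⟩ := h2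
  obtain ⟨T, hT1, hT2⟩ := exists_match ms L1 L2 a1 b1
  have e0 : Ltl T 0 = L1 := by
    rw [← hT1]; unfold Ltl ptl
    apply Multiset.map_congr rfl
    intro τ _
    simp
  have e1 : Ltl T 1 = L2 := by
    rw [← hT2]; unfold Ltl ptl
    apply Multiset.map_congr rfl
    intro τ _
    simp
  rw [← e0] at a3
  rw [← e1] at b3
  obtain ⟨P1, hP1, hP1'⟩ := exists_det_poly T 0 a3
  obtain ⟨P2, hP2, hP2'⟩ := exists_det_poly T 1 b3
  let Z : ℂ[X] := (T.map fun τ => cp τ.1.1 τ.2.1.1 * cp τ.1.2 τ.2.1.2).prod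
  have hZ : Z ≠ 0 := by
    apply Multiset.prod_ne_zero
    intro h0
    obtain ⟨τ, hτ, hτ0⟩ := Multiset.mem_map.mp h0
    have hmem : (τ.1, τ.2.2) ∈ L1 := by
      rw [← hT1]; exact Multiset.mem_map_of_mem _ hτ
    have h5 := a2 _ hmem
    have h6 := congrArg (Polynomial.eval 0) hτ0
    rw [eval_mul, eval_cp, eval_cp, eval_zero] at h6
    simp only [zero_mul, add_zero] at h6
    exact mul_ne_zero h5.1 h5.2 h6
  have hne1 : P1 ≠ 0 := by rintro rfl; simp at hP1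
  have hne2 : P2 ≠ 0 := by rintro rfl; simp at hP2
  obtain ⟨t, ht⟩ : ∃ t : ℂ, (P1 * P2 * Z).eval t ≠ 0 := by
    by_contra hcon
    apply mul_ne_zero (mul_ne_zero hne1 hne2) hZ
    apply Polynomial.funext
    intro t
    by_contra h
    exact hcon ⟨t, by simpa using h⟩
  rw [eval_mul, eval_mul] at ht
  have htZ := right_ne_zero_of_mul ht
  have ht1 := left_ne_zero_of_mul (left_ne_zero_of_mul ht)
  have ht2 := right_ne_zero_of_mul (left_ne_zero_of_mul ht)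
  refine ⟨Ltl T t, ?_, ?_, hP1' t ht1, hP2' t ht2⟩
  · unfold Ltl
    rw [Multiset.map_map, ← a1, ← hT1, Multiset.map_map]
    rfl
  · intro x hx
    obtain ⟨τ, hτ, rfl⟩ := Multiset.mem_map.mp hx
    obtain ⟨T', rfl⟩ := Multiset.exists_cons_of_mem hτ
    simp only [Z, Multiset.map_cons, Multiset.prod_cons, eval_mul, eval_cp] at htZ
    have h5 := left_ne_zero_of_mul htZ
    exact ⟨left_ne_zero_of_mul h5, right_ne_zero_of_mul h5⟩

end Pool.Agent.helper89.Segre
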