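import Mathlib

set_option autoImplicit false

/-!
# Finite-dimensional spaces of polynomials and vanishing orders at general points
-/

namespace Pool.Agent.helper89.Segre

open Polynomial

lemma natDegree_eq_of_wr {f g : ℂ[X]} (hf : f ≠ 0) (hg : g ≠ 0)
    (h : derivative f * g = f * derivative g) : f.natDegree = g.natDegree := by
  rcases Nat.eq_zero_or_pos f.natDegree with hn | hn
  · have h1 : derivative f = 0 := by
      rw [eq_C_of_natDegree_eq_zero hn, derivative_C]
    rw [h1, zero_mul] at h
    have h2 : derivative g = 0 := by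
      rcases mul_eq_zero.mp h.symm with h3 | h3
      · exact absurd h3 hf
      · exact h3
    rw [hn, derivative_eq_zero.mp h2]
  rcases Nat.eq_zero_or_pos g.natDegree with hm | hm
  · have h1 : derivative g = 0 := by
      rw [eq_C_of_natDegree_eq_zero hm, derivative_C]
    rw [h1, mul_zero] at h
    have h2 : derivative f = 0 := by
      rcases mul_eq_zero.mp h with h3 | h3
      · exact h3
      · exact absurd h3 hg
    rw [hm, derivative_eq_zero.mp h2]
  obtain ⟨n, hn'⟩ : ∃ n, f.natDegree = n + 1 := ⟨f.natDegree - 1, by omega⟩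
  obtain ⟨m, hm'⟩ : ∃ m, g.natDegree = m + 1 := ⟨g.natDegree - 1, by omega⟩
  have hdf : (derivative f).natDegree ≤ n := by
    have := natDegree_derivative_le f; omega
  have hdg : (derivative g).natDegree ≤ m := by
    have := natDegree_derivative_le g; omega
  have h1 : (derivative f * g).coeff (n + (m + 1)) = (derivative f).coeff n * g.coeff (m + 1) :=
    coeff_mul_add_eq_of_natDegree_le hdf hm'.le
  have h2 : (f * derivative g).coeff ((n + 1) + m) = f.coeff (n + 1) * (derivative g).coeff m :=
    coeff_mul_add_eq_of_natDegree_le hn'.le hdg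
  rw [h, show n + (m + 1) = n + 1 + m by omega, h2, coeff_derivative, coeff_derivative] at h1
  have hf0 : f.coeff (n + 1) ≠ 0 := by
    rw [← hn']; exact leadingCoeff_ne_zero.mpr hf
  have hg0 : g.coeff (m + 1) ≠ 0 := by
    rw [← hm']; exact leadingCoeff_ne_zero.mpr hg
  have h3 : (f.coeff (n + 1) * g.coeff (m + 1)) * ((m : ℂ) + 1) =
      (f.coeff (n + 1) * g.coeff (m + 1)) * ((n : ℂ) + 1) := by
    linear_combination h1
  have h4 := mul_left_cancel₀ (mul_ne_zero hf0 hg0) h3
  have h5 : (m : ℂ) = n := by linear_combination h4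
  have h6 : m = n := by exact_mod_cast h5
  omega

/-- If the Wronskian of `f` and `g ≠ 0` vanishes then `f` is a multiple of `g`. -/
lemma eq_mul_of_wr {f g : ℂ[X]} (hg : g ≠ 0)
    (h : derivative f * g = f * derivative g) : ∃ c : ℂ, f = C c * g := by
  by_cases hf : f = 0
  · exact ⟨0, by simp [hf]⟩
  have hn := natDegree_eq_of_wr hf hg h
  refine ⟨f.leadingCoeff / g.leadingCoeff, ?_⟩
  set c := f.leadingCoeff / g.leadingCoeff with hc
  by_contra hne
  have hd : f - C c * g ≠ 0 := sub_ne_zero.mpr hne
  have h1 : derivative (f - C c * g) * g = (f - C c * g) * derivative g := by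
    rw [derivative_sub, derivative_C_mul]
    linear_combination h
  have h2 := natDegree_eq_of_wr hd hg h1
  have h3 : (f - C c * g).coeff (f - C c * g).natDegree ≠ 0 := leadingCoeff_ne_zero.mpr hd
  apply h3
  rw [h2, coeff_sub, coeff_C_mul]
  have hg0 : g.leadingCoeff ≠ 0 := leadingCoeff_ne_zero.mpr hg
  have h4 : f.coeff g.natDegree = f.leadingCoeff := by rw [← hn]; rfl
  rw [h4]
  change f.leadingCoeff - c * g.leadingCoeff = 0
  rw [hc, div_mul_cancel₀ _ hg0, sub_self]

/-- the Wronskian with `g` -/
noncomputable def wrL (g : ℂ[X]) : ℂ[X] →ₗ[ℂ] ℂ[X] where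
  toFun f := derivative f * g - f * derivative g
  map_add' := by
    intro a b
    rw [derivative_add]; ring
  map_smul' := by
    intro a b
    simp only [derivative_smul, RingHom.id_apply, smul_mul_assoc, smul_sub]

/-- In a space of polynomials of dimension at most `b`, no nonzero polynomial vanishes to order `b`
at a general point. -/
theorem exists_finset_vanish (b : ℕ) : ∀ (W : Submodule ℂ ℂ[X]), FiniteDimensional ℂ W →
    Module.finrank ℂ W ≤ b → ∃ S : Finset ℂ, ∀ s ∉ S, ∀ r ∈ W, (X - C s) ^ b ∣ r → r = 0 := by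
  classical
  induction b with
  | zero =>
    intro W _ hW
    refine ⟨∅, fun s _ r hr _ => ?_⟩
    have : W = ⊥ := Submodule.finrank_eq_zero.mp (by omega)
    rw [this, Submodule.mem_bot] at hr
    exact hr
  | succ b ih =>
    intro W hfd hW
    by_cases h0 : W = ⊥
    · refine ⟨∅, fun s _ r hr _ => ?_⟩
      rw [h0, Submodule.mem_bot] at hr
      exact hr
    obtain ⟨r0, hr0, hr00⟩ := (Submodule.ne_bot_iff _).mp h0
    have hrn := LinearMap.finrank_range_add_finrank_ker ((wrL r0).domRestrict W)
    have hkerpos : 0 < Module.finrank ℂ (LinearMap.ker ((wrL r0).domRestrict W)) := by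
      apply Nat.pos_of_ne_zero
      intro hz
      have hbot := Submodule.finrank_eq_zero.mp hz
      have hmem : (⟨r0, hr0⟩ : W) ∈ LinearMap.ker ((wrL r0).domRestrict W) := by
        rw [LinearMap.mem_ker]
        change derivative r0 * r0 - r0 * derivative r0 = 0
        ring
      rw [hbot, Submodule.mem_bot] at hmem
      exact hr00 (congrArg (fun z : W => (z : ℂ[X])) hmem)
    have hrange : LinearMap.range ((wrL r0).domRestrict W) = W.map (wrL r0) := by
      ext x
      constructor
      · rintro ⟨⟨y, hy⟩, rfl⟩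
        exact ⟨y, hy, rfl⟩
      · rintro ⟨y, hy, rfl⟩
        exact ⟨⟨y, hy⟩, rfl⟩
    rw [hrange] at hrn
    obtain ⟨S, hS⟩ := ih (W.map (wrL r0)) inferInstance (by omega)
    refine ⟨S ∪ r0.roots.toFinset, fun s hs r hr hdvd => ?_⟩
    rw [Finset.mem_union, not_or] at hs
    have h1 : wrL r0 r = 0 := by
      apply hS s hs.1 _ (Submodule.mem_map_of_mem hr)
      change _ ∣ derivative r * r0 - r * derivative r0
      apply dvd_sub
      · apply Dvd.dvd.mul_right
        have := pow_sub_one_dvd_derivative_of_pow_dvd hdvd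
        simpa using this
      · apply Dvd.dvd.mul_right
        exact (pow_dvd_pow _ (Nat.le_succ b)).trans hdvd
    obtain ⟨c, hc⟩ := eq_mul_of_wr hr00 (sub_eq_zero.mp h1)
    rw [hc]
    by_cases hc0 : c = 0
    · simp [hc0]
    exfalso
    apply hs.2
    rw [Multiset.mem_toFinset, mem_roots hr00]
    have h2 : (X - C s) ∣ r := (dvd_pow_self _ (Nat.succ_ne_zero b)).trans hdvd
    rw [dvd_iff_isRoot, hc, IsRoot, eval_mul, eval_C] at h2
    exact (mul_eq_zero.mp h2).resolve_left hc0

end Pool.Agent.helper89.Segre
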