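import Mathlib
import Pool.Agent.helper89.Segre2.Simult
import Pool.Agent.helper89.Segre2.Wr

set_option autoImplicit false

/-!
# The interpolation lemma: an exact number of exponents in one column
-/

namespace Pool.Agent.helper89.Segre

open Polynomial

/-- the exponents `(H, j)` with `a ≤ j < b` -/
def col (H a b : ℕ) : Finset (ℕ × ℕ) := (Finset.Ico a b).image fun j => (H, j)

lemma mem_col {H a b : ℕ} {e : ℕ × ℕ} : e ∈ col H a b ↔ e.1 = H ∧ a ≤ e.2 ∧ e.2 < b := by
  unfold col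
  rw [Finset.mem_image]
  constructor
  · rintro ⟨j, hj, rfl⟩
    rw [Finset.mem_Ico] at hj
    exact ⟨rfl, hj.1, hj.2⟩
  · rintro ⟨h1, h2, h3⟩
    exact ⟨e.2, Finset.mem_Ico.mpr ⟨h2, h3⟩, by ext <;> simp [h1]⟩

lemma card_col (H a b : ℕ) : (col H a b).card = b - a := by
  unfold col
  rw [Finset.card_image_of_injective, Nat.card_Ico]
  intro x y h
  exact (Prod.mk.inj h).2

lemma poly_key {D : Finset (ℕ × ℕ)} {s t : ℂ} (c : ℕ × ℕ → ℂ) (i j : ℕ) :
    (((taylor (C t) (poly D 0 c)).coeff j).comp (X + C s)).coeff i =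
      ∑ e ∈ D, c e * (s ^ (e.1 - i) * ((e.1.choose i : ℕ) : ℂ)) *
        (t ^ (e.2 - j) * ((e.2.choose j : ℕ) : ℂ)) := by
  unfold poly
  rw [map_sum, finsetSum_coeff, ← taylor_apply, map_sum, finsetSum_coeff]
  apply Finset.sum_congr rfl
  intro e _
  rw [taylor_mul, taylor_C, taylor_X_pow, coeff_C_mul, coeff_X_add_C_pow, taylor_mul, taylor_mul,
    taylor_C, taylor_X_pow, Nat.sub_zero, ← C_pow, ← C_eq_natCast, ← C_mul, taylor_C, coeff_mul_C,
    coeff_C_mul, coeff_X_add_C_pow]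

lemma van_iff {D : Finset (ℕ × ℕ)} {μ : ℕ} {s t : ℂ} (hs : s ≠ 0) (ht : t ≠ 0) (c : ℕ × ℕ → ℂ) :
    Van (poly D 0 c) s t μ ↔ ∀ ij ∈ idx μ, ∑ e ∈ D, c e * (pw (s, t) e *
      ((e.1.choose ij.1 : ℕ) : ℂ) * ((e.2.choose ij.2 : ℕ) : ℂ)) = 0 := by
  refine ⟨fun h => ?_, van_poly hs ht c⟩
  rintro ⟨i, j⟩ hij
  rw [mem_idx] at hij
  simp only at hij
  have h0 := h j
  rw [X_sub_C_pow_dvd_iff, X_pow_dvd_iff] at h0
  have h1 := h0 i (by omega)
  rw [poly_key] at h1
  have h2 : ∑ e ∈ D, c e * (pw (s, t) e * ((e.1.choose i : ℕ) : ℂ) * ((e.2.choose j : ℕ) : ℂ)) =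
      s ^ i * t ^ j * ∑ e ∈ D, c e * (s ^ (e.1 - i) * ((e.1.choose i : ℕ) : ℂ)) *
        (t ^ (e.2 - j) * ((e.2.choose j : ℕ) : ℂ)) := by
    rw [Finset.mul_sum]
    apply Finset.sum_congr rfl
    intro e _
    unfold pw
    simp only
    rcases Nat.lt_or_ge e.1 i with hlt | hge
    · rw [Nat.choose_eq_zero_of_lt hlt]; simp
    rcases Nat.lt_or_ge e.2 j with hlt2 | hge2
    · rw [Nat.choose_eq_zero_of_lt hlt2]; simp
    · have e1 : s ^ e.1 = s ^ i * s ^ (e.1 - i) := by rw [← pow_add]; congr 1; omega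
      have e2 : t ^ e.2 = t ^ j * t ^ (e.2 - j) := by rw [← pow_add]; congr 1; omega
      rw [e1, e2]; ring
  simp only
  rw [h2, h1, mul_zero]

lemma mem_Kr_iff_van {D : Finset (ℕ × ℕ)} {L : Multiset ((ℂ × ℂ) × ℕ)}
    (hL : ∀ x ∈ L, x.1.1 ≠ 0 ∧ x.1.2 ≠ 0) {c : ℕ × ℕ → ℂ} :
    c ∈ Kr D L ↔ (∀ e ∉ D, c e = 0) ∧ ∀ x ∈ L, Van (poly D 0 c) x.1.1 x.1.2 x.2 := by
  rw [mem_Kr_iff]
  constructor
  · rintro ⟨h1, h2⟩
    exact ⟨h1, fun x hx => (van_iff (hL x hx).1 (hL x hx).2 c).mpr (h2 x hx)⟩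
  · rintro ⟨h1, h2⟩
    exact ⟨h1, fun x hx => (van_iff (hL x hx).1 (hL x hx).2 c).mp (h2 x hx)⟩

lemma coeff_poly0 (D : Finset (ℕ × ℕ)) (c : ℕ × ℕ → ℂ) (i j : ℕ) :
    ((poly D 0 c).coeff j).coeff i = if (i, j) ∈ D then c (i, j) else 0 := by
  classical
  unfold poly
  rw [finsetSum_coeff, finsetSum_coeff]
  have h1 : ∀ e ∈ D, ((C (C (c e) * X ^ e.1) * X ^ (e.2 - 0) : ℂ[X][X]).coeff j).coeff i =
      if e = (i, j) then c (i, j) else 0 := by
    intro e _
    rw [coeff_C_mul, coeff_X_pow, Nat.sub_zero]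
    by_cases h2 : j = e.2
    · rw [if_pos h2, mul_one, coeff_C_mul, coeff_X_pow]
      by_cases h3 : i = e.1
      · have : e = (i, j) := by ext <;> simp [h2, h3]
        rw [if_pos h3, if_pos this, mul_one, this]
      · rw [if_neg h3, if_neg (by rintro rfl; exact h3 rfl), mul_zero]
    · rw [if_neg h2, if_neg (by rintro rfl; exact h2 rfl), mul_zero, coeff_zero]
  rw [Finset.sum_congr rfl h1, Finset.sum_ite_eq']

/-- coefficients after a translation of the second variable -/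
noncomputable def trc (D : Finset (ℕ × ℕ)) (σ : ℂ) (c : ℕ × ℕ → ℂ) (e' : ℕ × ℕ) : ℂ :=
  ∑ e ∈ D, if e.1 = e'.1 then c e * (σ ^ (e.2 - e'.2) * ((e.2.choose e'.2 : ℕ) : ℂ)) else 0

lemma taylor_poly0 {D D' : Finset (ℕ × ℕ)} {σ : ℂ} {c : ℕ × ℕ → ℂ}
    (hsupp : ∀ e ∉ D', trc D σ c e = 0) :
    taylor (C σ) (poly D 0 c) = poly D' 0 (trc D σ c) := by
  classical
  ext j i
  rw [coeff_poly0]
  have h1 : ((taylor (C σ) (poly D 0 c)).coeff j).coeff i = trc D σ c (i, j) := by
    unfold poly trc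
    rw [map_sum, finsetSum_coeff, finsetSum_coeff]
    apply Finset.sum_congr rfl
    intro e _
    rw [taylor_mul, taylor_C, taylor_X_pow, coeff_C_mul, coeff_X_add_C_pow, Nat.sub_zero,
      ← C_pow, ← C_eq_natCast, ← C_mul, coeff_mul_C, coeff_C_mul, coeff_X_pow]
    by_cases h2 : e.1 = i
    · rw [if_pos h2.symm, if_pos h2]; ring
    · rw [if_neg (fun h => h2 h.symm), if_neg h2]; ring
  rw [h1]
  by_cases h2 : (i, j) ∈ D'
  · rw [if_pos h2]
  · rw [if_neg h2, hsupp _ h2]

/-- translation of the second coordinates of the points -/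
noncomputable def trL (σ : ℂ) (L : Multiset ((ℂ × ℂ) × ℕ)) : Multiset ((ℂ × ℂ) × ℕ) :=
  L.map fun x => ((x.1.1, x.1.2 + σ), x.2)

/-- The projection of the coefficients to the polynomial of a column. -/
noncomputable def colp (H n : ℕ) : (ℕ × ℕ → ℂ) →ₗ[ℂ] ℂ[X] :=
  ∑ j ∈ Finset.range n, (monomial j).comp (LinearMap.proj (R := ℂ) (H, j))

lemma colp_apply (H n : ℕ) (c : ℕ × ℕ → ℂ) :
    colp H n c = ∑ j ∈ Finset.range n, monomial j (c (H, j)) := by
  unfold colp
  rw [LinearMap.sum_apply]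
  rfl

lemma coeff_colp {H n : ℕ} {c : ℕ × ℕ → ℂ} {j : ℕ} (hj : j < n) :
    (colp H n c).coeff j = c (H, j) := by
  rw [colp_apply, finsetSum_coeff, Finset.sum_eq_single j]
  · rw [coeff_monomial, if_pos rfl]
  · intro k _ hk
    rw [coeff_monomial, if_neg hk]
  · intro h; exact absurd (Finset.mem_range.mpr hj) h

/-- The interpolation lemma. -/
lemma Good.interp {R : Finset (ℕ × ℕ)} {H n N : ℕ} {ms : Multiset ℕ}
    (hR : ∀ i j j', (i, j) ∈ R → j' ≤ j → (i, j') ∈ R) (hRH : ∀ e ∈ R, e.1 ≠ H)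
    (h1 : Good ℂ (R ∪ col H 0 n) ms N) (h2 : Good ℂ R ms R.card)
    (hN1 : R.card ≤ N) (hN2 : N ≤ R.card + n) :
    Good ℂ (R ∪ col H (R.card + n - N) n) ms N := by
  classical
  obtain ⟨L, hL1, hL2, hL3, hL4⟩ := h1.simult h2
  set b := R.card + n - N with hb
  have hdisj : ∀ a, Disjoint R (col H a n) := by
    intro a
    rw [Finset.disjoint_left]
    intro e he he'
    exact hRH e he (mem_col.mp he').1
  have hcardD : (R ∪ col H 0 n).card = R.card + n := by
    rw [Finset.card_union_of_disjoint (hdisj 0), card_col, Nat.sub_zero]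
  have hcardD' : (R ∪ col H b n).card = N := by
    rw [Finset.card_union_of_disjoint (hdisj b), card_col]; omega
  have hfr := hL3.finrank_le
  rw [hcardD] at hfr
  have hfr2 : Module.finrank ℂ ((Kr (R ∪ col H 0 n) L).map (colp H n)) ≤ b :=
    (Submodule.finrank_map_le _ _).trans (by omega)
  obtain ⟨S, hS⟩ := exists_finset_vanish b _ inferInstance hfr2
  obtain ⟨s, hs⟩ := Infinite.exists_notMem_finset (S ∪ (L.map fun x => x.1.2).toFinset)
  rw [Finset.mem_union, not_or, Multiset.mem_toFinset, Multiset.mem_map] at hs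
  have hs2 : ∀ x ∈ L, x.1.2 + -s ≠ 0 := by
    intro x hx h
    apply hs.2
    exact ⟨x, hx, by linear_combination h⟩
  refine ⟨trL (-s) L, ?_, ?_, ?_⟩
  · unfold trL
    rw [Multiset.map_map, ← hL1]; rfl
  · intro x hx
    obtain ⟨z, hz, rfl⟩ := Multiset.mem_map.mp hx
    exact ⟨(hL2 z hz).1, hs2 z hz⟩
  rw [← hcardD']
  apply hasRank_of_kr
  rw [Kr_eq_bot_iff]
  intro c' hc'
  have hL2' : ∀ x ∈ trL (-s) L, x.1.1 ≠ 0 ∧ x.1.2 ≠ 0 := by
    intro x hx
    obtain ⟨z, hz, rfl⟩ := Multiset.mem_map.mp hx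
    exact ⟨(hL2 z hz).1, hs2 z hz⟩
  rw [mem_Kr_iff_van hL2'] at hc'
  -- support of the translate
  have hsupp : ∀ e ∉ R ∪ col H 0 n, trc (R ∪ col H b n) (-s) c' e = 0 := by
    intro e he
    unfold trc
    apply Finset.sum_eq_zero
    intro f hf
    by_cases h3 : f.1 = e.1
    · rw [if_pos h3]
      have hlt : f.2 < e.2 := by
        by_contra hge
        apply he
        rw [Finset.mem_union] at hf ⊢
        rcases hf with hf | hf
        · left
          have := hR f.1 f.2 e.2 hf (by omega)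
          rwa [h3] at this
        · right
          rw [mem_col] at hf ⊢
          omega
      rw [Nat.choose_eq_zero_of_lt hlt]; simp
    · rw [if_neg h3]
  have htay := taylor_poly0 hsupp
  set c := trc (R ∪ col H b n) (-s) c' with hc
  have hcK : c ∈ Kr (R ∪ col H 0 n) L := by
    rw [mem_Kr_iff_van hL2]
    refine ⟨hsupp, fun x hx => ?_⟩
    have h3 := hc'.2 ((x.1.1, x.1.2 + -s), x.2) (Multiset.mem_map_of_mem _ hx)
    intro j
    have h4 := h3 j
    rw [← htay, taylor_taylor]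
    simp only at h4
    rw [← C_add]
    exact h4
  -- the column polynomial vanishes
  have hcol0 : colp H n c = 0 := by
    apply hS s hs.1 _ (Submodule.mem_map_of_mem hcK)
    have h5 : colp H n c = ∑ e ∈ col H b n, C (c' e) * (X - C s) ^ e.2 := by
      ext j
      rw [finsetSum_coeff]
      by_cases hj : j < n
      · rw [coeff_colp hj, hc]
        unfold trc
        rw [Finset.sum_union (hdisj b)]
        have h6 : ∑ e ∈ R, (if e.1 = (H, j).1 then c' e * ((-s) ^ (e.2 - (H, j).2) *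
            ((e.2.choose (H, j).2 : ℕ) : ℂ)) else 0) = 0 := by
          apply Finset.sum_eq_zero
          intro e he
          rw [if_neg (hRH e he)]
        rw [h6, zero_add]
        apply Finset.sum_congr rfl
        intro e he
        rw [if_pos (mem_col.mp he).1, coeff_C_mul, sub_eq_add_neg, ← C_neg, coeff_X_add_C_pow]
      · have h6 : (colp H n c).coeff j = 0 := by
          rw [colp_apply, finsetSum_coeff]
          apply Finset.sum_eq_zero
          intro k hk
          rw [Finset.mem_range] at hk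
          rw [coeff_monomial, if_neg (by omega)]
        rw [h6]
        symm
        apply Finset.sum_eq_zero
        intro e he
        have := (mem_col.mp he).2.2
        rw [coeff_C_mul, sub_eq_add_neg, ← C_neg, coeff_X_add_C_pow,
          Nat.choose_eq_zero_of_lt (by omega)]
        simp
    rw [h5]
    apply Finset.dvd_sum
    intro e he
    exact Dvd.dvd.mul_left (pow_dvd_pow _ (mem_col.mp he).2.1) _
  have hcR : c ∈ Kr R L := by
    have h7 : ∀ e ∉ R, c e = 0 := by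
      intro e he
      by_cases h8 : e ∈ col H 0 n
      · have h9 := mem_col.mp h8
        have := coeff_colp (H := H) (c := c) h9.2.2
        rw [hcol0, coeff_zero] at this
        rw [show e = (H, e.2) from by ext <;> simp [h9.1]]
        exact this.symm
      · exact hcK.1 e (by rw [Finset.mem_union, not_or]; exact ⟨he, h8⟩)
    refine ⟨h7, fun φ hφ => ?_⟩
    rw [← hcK.2 φ hφ]
    apply Finset.sum_subset Finset.subset_union_left
    intro e _ he
    rw [h7 e he, zero_mul]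
  rw [hL4.kr_eq_bot, Submodule.mem_bot] at hcR
  rw [hcR] at htay
  have h10 : poly (R ∪ col H 0 n) 0 (0 : ℕ × ℕ → ℂ) = 0 := by
    unfold poly
    apply Finset.sum_eq_zero
    intro e _
    simp
  rw [h10] at htay
  have h11 : poly (R ∪ col H b n) 0 c' = 0 := by
    have h12 := taylor_injective (C (-s) : ℂ[X])
    apply h12
    rw [htay, map_zero]
  ext e
  by_cases he : e ∈ R ∪ col H b n
  · have := coeff_poly0 (R ∪ col H b n) c' e.1 e.2
    rw [h11, if_pos he] at this
    simpa using this.symm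
  · exact hc'.1 e he

end Pool.Agent.helper89.Segre
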