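import Mathlib
import Pool.Agent.helper89.Segre2.Interp

set_option autoImplicit false

/-!
# Symmetries of the set of exponents
-/

namespace Pool.Agent.helper89.Segre

open Polynomial

lemma HasRank.transfer {D D' : Finset (ℕ × ℕ)} {L L' : Multiset ((ℂ × ℂ) × ℕ)} {r : ℕ}
    (T : (ℕ × ℕ → ℂ) →ₗ[ℂ] (ℕ × ℕ → ℂ)) (h1 : ∀ c ∈ Kr D' L', T c ∈ Kr D L)
    (h2 : ∀ c ∈ Kr D' L', T c = 0 → c = 0) (hcard : D'.card = D.card) (h : HasRank D L r) :
    HasRank D' L' r := by
  rw [hasRank_iff] at h ⊢
  have h3 : Module.finrank ℂ (Kr D' L') ≤ Module.finrank ℂ (Kr D L) := by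
    let T' : Kr D' L' →ₗ[ℂ] Kr D L := T.restrict h1
    apply LinearMap.finrank_le_finrank_of_injective (f := T')
    rw [← LinearMap.ker_eq_bot, LinearMap.ker_eq_bot']
    rintro ⟨c, hc⟩ h4
    have h5 : T c = 0 := congrArg (fun z : Kr D L => (z : ℕ × ℕ → ℂ)) h4
    exact Subtype.ext (h2 c hc h5)
  omega

/-- translation of the exponents -/
lemma Good.shift {D : Finset (ℕ × ℕ)} {ms : Multiset ℕ} {r : ℕ} (h : Good ℂ D ms r) (H : ℕ) :
    Good ℂ (D.image fun e => (e.1 + H, e.2)) ms r := by
  classical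
  obtain ⟨L, hL1, hL2, hL3⟩ := h
  have hinj : Function.Injective (fun e : ℕ × ℕ => (e.1 + H, e.2)) := by
    intro a b hab
    simp only [Prod.mk.injEq] at hab
    ext
    · omega
    · exact hab.2
  refine ⟨L, hL1, hL2, ?_⟩
  refine hL3.transfer (LinearMap.funLeft ℂ ℂ (fun e : ℕ × ℕ => (e.1 + H, e.2))) ?_ ?_
    (Finset.card_image_of_injective _ hinj)
  · intro c hc
    rw [mem_Kr_iff_van hL2] at hc ⊢
    have hpoly : poly (D.image fun e => (e.1 + H, e.2)) 0 c =
        C (X ^ H) * poly D 0 (LinearMap.funLeft ℂ ℂ (fun e : ℕ × ℕ => (e.1 + H, e.2)) c) := by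
      unfold poly
      rw [Finset.sum_image (fun a _ b _ h => hinj h), Finset.mul_sum]
      apply Finset.sum_congr rfl
      intro e _
      simp only [LinearMap.funLeft_apply]
      rw [pow_add, ← mul_assoc (C (X ^ H)), ← C_mul]
      congr 2
      ring
    refine ⟨fun e he => ?_, fun x hx => ?_⟩
    · apply hc.1
      intro h4
      obtain ⟨f, hf, hfe⟩ := Finset.mem_image.mp h4
      rw [hinj hfe] at hf
      exact he hf
    · have h5 := hc.2 x hx
      intro j
      have h6 := h5 j
      rw [hpoly, taylor_mul, taylor_C, coeff_C_mul] at h6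
      have hcop : IsCoprime ((X - C x.1.1) ^ (x.2 - j)) ((X : ℂ[X]) ^ H) := by
        apply IsCoprime.pow
        have := isCoprime_X_sub_C_of_isUnit_sub (a := x.1.1) (b := (0 : ℂ))
          (by rw [sub_zero]; exact (hL2 x hx).1.isUnit)
        rwa [C_0, sub_zero] at this
      exact hcop.dvd_of_dvd_mul_left h6
  · intro c hc h0
    ext e
    by_cases he : e ∈ D.image fun e => (e.1 + H, e.2)
    · obtain ⟨f, hf, rfl⟩ := Finset.mem_image.mp he
      exact congrFun h0 f
    · exact hc.1 e he

/-- the exchange of the last two homogeneous coordinates -/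
lemma Good.flip {d : ℕ} {D : Finset (ℕ × ℕ)} (hD : D ⊆ tri d) {ms : Multiset ℕ} {r : ℕ}
    (h : Good ℂ D ms r) : Good ℂ (D.image fun e => (e.1, d - e.1 - e.2)) ms r := by
  classical
  obtain ⟨L, hL1, hL2, hL3⟩ := h
  have hinj : Set.InjOn (fun e : ℕ × ℕ => (e.1, d - e.1 - e.2)) D := by
    intro a ha b hb hab
    have h1 := mem_tri.mp (hD ha)
    have h2 := mem_tri.mp (hD hb)
    simp only [Prod.mk.injEq] at hab
    ext
    · exact hab.1
    · omega
  set D' := D.image fun e => (e.1, d - e.1 - e.2) with hD'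
  have hD'tri : D' ⊆ tri d := by
    intro e he
    obtain ⟨f, hf, rfl⟩ := Finset.mem_image.mp he
    have := mem_tri.mp (hD hf)
    rw [mem_tri]; simp only; omega
  refine ⟨L.map fun x => ((x.1.1 / x.1.2, 1 / x.1.2), x.2), ?_, ?_, ?_⟩
  · rw [Multiset.map_map, ← hL1]; rfl
  · intro x hx
    obtain ⟨z, hz, rfl⟩ := Multiset.mem_map.mp hx
    exact ⟨div_ne_zero (hL2 z hz).1 (hL2 z hz).2, div_ne_zero one_ne_zero (hL2 z hz).2⟩
  let T : (ℕ × ℕ → ℂ) →ₗ[ℂ] (ℕ × ℕ → ℂ) :=
    { toFun := fun c e => if e ∈ D then c (e.1, d - e.1 - e.2) else 0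
      map_add' := by
        intro a b; ext e
        simp only [Pi.add_apply]
        split_ifs <;> simp
      map_smul' := by
        intro a b; ext e
        simp only [Pi.smul_apply, smul_eq_mul, RingHom.id_apply]
        split_ifs <;> simp }
  refine hL3.transfer T ?_ ?_ (Finset.card_image_of_injOn hinj)
  · intro c hc
    rw [mem_Kr_iff] at hc ⊢
    refine ⟨fun e he => if_neg he, ?_⟩
    rintro x hx ⟨i, l⟩ hil
    rw [mem_idx] at hil
    simp only at hil
    obtain ⟨hs, ht⟩ := hL2 x hx
    set s := x.1.1 with hs'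
    set t := x.1.2 with ht'
    -- sums over the triangle are sums over `D'`
    have hsum : ∀ g : ℕ × ℕ → ℂ, ∑ e : tri d, c e * g e = ∑ e ∈ D', c e * g e := by
      intro g
      rw [Finset.sum_coe_sort (tri d) (fun e => c e * g e)]
      symm
      apply Finset.sum_subset hD'tri
      intro e _ he
      rw [hc.1 e he, zero_mul]
    let p : Fin 3 → ℂ := ![s, 1, t]
    have hhyp : ∀ i j, i + j < x.2 → ∑ e : tri d, c e * RR d p i j 0 e = 0 := by
      intro i j hij
      rw [hsum]
      have h1 := hc.2 _ (Multiset.mem_map_of_mem _ hx) (i, j) (mem_idx.mpr hij)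
      simp only at h1
      have h2 : s ^ i * ∑ e ∈ D', c e * RR d p i j 0 e = t ^ d * ∑ e ∈ D', c e *
          (pw (s / t, 1 / t) e * ((e.1.choose i : ℕ) : ℂ) * ((e.2.choose j : ℕ) : ℂ)) := by
        rw [Finset.mul_sum, Finset.mul_sum]
        apply Finset.sum_congr rfl
        intro e he
        have he' := mem_tri.mp (hD'tri he)
        unfold RR gg pw
        simp only [p, Matrix.cons_val_zero, Matrix.cons_val_one, Matrix.cons_val, one_pow,
          Nat.choose_zero_right, Nat.cast_one, mul_one, one_mul, Nat.sub_zero]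
        rcases Nat.lt_or_ge e.1 i with hlt | hge
        · rw [Nat.choose_eq_zero_of_lt hlt]; simp
        · have e1 : s ^ e.1 = s ^ i * s ^ (e.1 - i) := by rw [← pow_add]; congr 1; omega
          have e2 : t ^ d = t ^ (d - e.1 - e.2) * t ^ e.1 * t ^ e.2 := by
            rw [← pow_add, ← pow_add]; congr 1; omega
          rw [div_pow, div_pow, one_pow, e1, e2]
          field_simp
      rw [h1, mul_zero] at h2
      exact (mul_eq_zero.mp h2).resolve_left (pow_ne_zero _ hs)
    have hall := all_conditions d p ht (fun e => c e) x.2 hhyp l i 0 (by omega)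
    rw [hsum, hD', Finset.sum_image hinj] at hall
    have h3 : ∑ e ∈ D, T c e * (pw x.1 e * ((e.1.choose i : ℕ) : ℂ) * ((e.2.choose l : ℕ) : ℂ)) =
        s ^ i * t ^ l * ∑ e ∈ D, c (e.1, d - e.1 - e.2) * RR d p i 0 l (e.1, d - e.1 - e.2) := by
      rw [Finset.mul_sum]
      apply Finset.sum_congr rfl
      intro e he
      have he' := mem_tri.mp (hD he)
      have hTe : T c e = c (e.1, d - e.1 - e.2) := if_pos he
      rw [hTe]
      unfold RR gg pw
      simp only [p, Matrix.cons_val_zero, Matrix.cons_val_one, Matrix.cons_val, one_pow,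
        Nat.choose_zero_right, Nat.cast_one, mul_one]
      rw [show d - e.1 - (d - e.1 - e.2) = e.2 by omega, ← hs', ← ht']
      rcases Nat.lt_or_ge e.1 i with hlt | hge
      · rw [Nat.choose_eq_zero_of_lt hlt]; simp
      rcases Nat.lt_or_ge e.2 l with hlt2 | hge2
      · rw [Nat.choose_eq_zero_of_lt hlt2]; simp
      · have e1 : s ^ e.1 = s ^ i * s ^ (e.1 - i) := by rw [← pow_add]; congr 1; omega
        have e2 : t ^ e.2 = t ^ l * t ^ (e.2 - l) := by rw [← pow_add]; congr 1; omega
        rw [e1, e2]; ring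
    simp only
    rw [h3, hall, mul_zero]
  · intro c hc h0
    ext e
    by_cases he : e ∈ D'
    · obtain ⟨f, hf, rfl⟩ := Finset.mem_image.mp he
      have := congrFun h0 f
      change (if f ∈ D then c (f.1, d - f.1 - f.2) else 0) = 0 at this
      rw [if_pos hf] at this
      exact this
    · exact hc.1 e he

end Pool.Agent.helper89.Segre
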