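import Mathlib
import Pool.Agent.helper89.Segre2.Kernel

set_option autoImplicit false

/-!
# Splitting the set of exponents in two parts
-/

namespace Pool.Agent.helper89.Segre

open Polynomial

lemma HasRank.exists_phi {D : Finset (ℕ × ℕ)} {L : Multiset ((ℂ × ℂ) × ℕ)}
    (h : HasRank D L D.card) (v : ℕ × ℕ → ℂ) : ∃ φ ∈ Phi L, ∀ e ∈ D, φ e = v e := by
  classical
  have hkr := h.kr_eq_bot
  have htop : (Phi L).map (resD D) = ⊤ := by
    by_contra hne
    obtain ⟨f, hf0, hf⟩ := Submodule.exists_le_ker_of_lt_top _ (lt_top_iff_ne_top.mpr hne)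
    apply hf0
    let c : ℕ × ℕ → ℂ := fun e => if he : e ∈ D then f (Pi.single ⟨e, he⟩ 1) else 0
    have hfc : ∀ v : D → ℂ, f v = ∑ e : D, v e * c e := by
      intro v
      rw [LinearMap.pi_apply_eq_sum_univ f v]
      apply Finset.sum_congr rfl
      intro e _
      simp only [c, e.2, dif_pos, smul_eq_mul]
      congr 2
      ext j
      by_cases hj : e = j
      · subst hj; simp
      · rw [if_neg hj, Pi.single_eq_of_ne (fun h => hj h.symm)]
    have hc : c ∈ Kr D L := by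
      refine ⟨fun e he => dif_neg he, fun φ hφ => ?_⟩
      have h1 : resD D φ ∈ f.ker := hf (Submodule.mem_map_of_mem hφ)
      rw [LinearMap.mem_ker, hfc] at h1
      rw [← Finset.sum_coe_sort D, ← h1]
      apply Finset.sum_congr rfl
      intro e _
      simp only [resD, LinearMap.funLeft_apply]
      ring
    rw [hkr, Submodule.mem_bot] at hc
    ext e
    simp only [LinearMap.coe_comp, LinearMap.coe_single, Function.comp_apply, LinearMap.zero_comp,
      LinearMap.zero_apply]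
    have := congrFun hc e
    simpa [c, e.2] using this
  have : (resD D) v ∈ (Phi L).map (resD D) := by rw [htop]; trivial
  obtain ⟨φ, h1, h2⟩ := this
  exact ⟨φ, h1, fun e he => congrFun h2 ⟨e, he⟩⟩

/-- scaling of the points -/
noncomputable def scal (t : ℂ) (K0 : ℕ) (L : Multiset ((ℂ × ℂ) × ℕ)) : Multiset ((ℂ × ℂ) × ℕ) :=
  L.map fun x => ((x.1.1 * (t ^ K0)⁻¹, x.1.2 * t⁻¹), x.2)

lemma mem_Phi_scal {t : ℂ} (K0 : ℕ) {L : Multiset ((ℂ × ℂ) × ℕ)}
    {φ : ℕ × ℕ → ℂ} (hφ : φ ∈ Phi L) :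
    (fun e : ℕ × ℕ => (t ^ (K0 * e.1 + e.2))⁻¹ * φ e) ∈ Phi (scal t K0 L) := by
  induction hφ using Submodule.span_induction with
  | mem φ hφ =>
    obtain ⟨x, hx, ij, hij, rfl⟩ := hφ
    apply Submodule.subset_span
    refine ⟨((x.1.1 * (t ^ K0)⁻¹, x.1.2 * t⁻¹), x.2), Multiset.mem_map_of_mem _ hx, ij, hij, ?_⟩
    ext e
    unfold pw
    simp only [mul_pow, inv_pow, ← pow_mul, pow_add, mul_inv]
    ring
  | zero =>
    have h0 : (fun e : ℕ × ℕ => (t ^ (K0 * e.1 + e.2))⁻¹ * (0 : ℕ × ℕ → ℂ) e) = 0 := by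
      ext e; simp
    rw [h0]; exact Submodule.zero_mem _
  | add φ ψ _ _ h1 h2 =>
    have := Submodule.add_mem _ h1 h2
    convert this using 1
    ext e
    simp only [Pi.add_apply]
    ring
  | smul a φ _ h1 =>
    have := Submodule.smul_mem _ a h1
    convert this using 1
    ext e
    simp only [Pi.smul_apply, smul_eq_mul]
    ring

/-- Splitting. -/
lemma Good.split {DA DB : Finset (ℕ × ℕ)} {A B : Multiset ℕ} {r : ℕ}
    (hlex : ∀ e ∈ DA, ∀ e' ∈ DB, e'.1 < e.1 ∨ (e'.1 = e.1 ∧ e'.2 < e.2))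
    (hA : Good ℂ DA A DA.card) (hB : Good ℂ DB B r) :
    Good ℂ (DA ∪ DB) (A + B) (DA.card + r) := by
  classical
  obtain ⟨LA, hA1, hA2, hA3⟩ := hA
  obtain ⟨LB, hB1, hB2, ι, i1, i2, φ, e, h3, h4, h5, h6⟩ := hB
  have hdual : ∀ g : ℕ × ℕ, ∃ ψ ∈ Phi LA, ∀ e ∈ DA, ψ e = if e = g then 1 else 0 :=
    fun g => hA3.exists_phi (fun e => if e = g then 1 else 0)
  choose ψ hψ1 hψ2 using hdual
  -- a bound for all exponents
  obtain ⟨K1, hK1⟩ : ∃ K1, ∀ e ∈ DA ∪ DB, e.1 ≤ K1 ∧ e.2 ≤ K1 :=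
    ⟨∑ e ∈ DA ∪ DB, (e.1 + e.2), fun e he => by
      have := Finset.single_le_sum (f := fun e : ℕ × ℕ => e.1 + e.2) (fun _ _ => Nat.zero_le _) he
      omega⟩
  let w : ℕ × ℕ → ℕ := fun e => (K1 + 1) * (K1 - e.1) + (K1 - e.2)
  have hw : ∀ g ∈ DA, ∀ e ∈ DB, w g < w e := by
    intro g hg e he
    have h1 := hK1 g (Finset.mem_union_left _ hg)
    have h2 := hK1 e (Finset.mem_union_right _ he)
    simp only [w]
    rcases hlex g hg e he with h | ⟨h, h'⟩
    · have h7 : (K1 + 1) * (K1 - g.1 + 1) ≤ (K1 + 1) * (K1 - e.1) := Nat.mul_le_mul_left _ (by omega)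
      have h8 : (K1 + 1) * (K1 - g.1 + 1) = (K1 + 1) * (K1 - g.1) + (K1 + 1) := by ring
      omega
    · rw [h]; omega
  -- the matrix over `ℂ[T]`
  let Bm : Matrix DA ι ℂ[X] := Matrix.of fun g j =>
    C (ψ g (e j)) * X ^ (w (e j) - w g)
  let Am : Matrix DA DA ℂ[X] := 1
  let Cm : Matrix ι DA ℂ[X] := Matrix.of fun i g => C (φ i g)
  let Em : Matrix ι ι ℂ[X] := Matrix.of fun i j => C (φ i (e j))
  let N : Matrix (DA ⊕ ι) (DA ⊕ ι) ℂ[X] := Matrix.fromBlocks Am Bm Cm Em
  have hN0 : N.det.eval 0 ≠ 0 := by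
    have hh : N.det.eval 0 = (N.map (Polynomial.evalRingHom (0 : ℂ))).det := by
      rw [← Polynomial.coe_evalRingHom, RingHom.map_det]; rfl
    rw [hh]
    have hmap : N.map (Polynomial.evalRingHom (0 : ℂ)) =
        Matrix.fromBlocks (1 : Matrix DA DA ℂ) 0 (Matrix.of fun i (g : DA) => φ i g)
          (Matrix.of fun i j => φ i (e j)) := by
      rw [Matrix.fromBlocks_map]
      congr 1
      · simp [Am]
      · ext g j
        simp only [Bm, Matrix.map_apply, Matrix.of_apply, coe_evalRingHom, eval_mul, eval_C,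
          eval_pow, eval_X, Matrix.zero_apply]
        have := hw g g.2 (e j) (h5 j)
        rw [zero_pow (by omega), mul_zero]
      · ext i g; simp [Cm]
      · ext i j; simp [Em]
    rw [hmap, Matrix.det_fromBlocks_zero₁₂]
    simpa using h6
  have hNne : X * N.det ≠ 0 := by
    apply mul_ne_zero X_ne_zero
    intro h0
    rw [h0, eval_zero] at hN0
    exact hN0 rfl
  obtain ⟨t, ht⟩ : ∃ t : ℂ, (X * N.det).eval t ≠ 0 := by
    by_contra hcon
    apply hNne
    apply Polynomial.funext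
    intro t
    by_contra h
    exact hcon ⟨t, by simpa using h⟩
  rw [eval_mul, eval_X] at ht
  have ht0 : t ≠ 0 := left_ne_zero_of_mul ht
  have htN : N.det.eval t ≠ 0 := right_ne_zero_of_mul ht
  refine ⟨scal t (K1 + 1) LA + LB, ?_, ?_, ?_⟩
  · rw [Multiset.map_add, hB1]
    congr 1
    unfold scal
    rw [Multiset.map_map, ← hA1]
    rfl
  · intro x hx
    rcases Multiset.mem_add.mp hx with hx | hx
    · obtain ⟨z, hz, rfl⟩ := Multiset.mem_map.mp hx
      have := hA2 z hz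
      exact ⟨mul_ne_zero this.1 (inv_ne_zero (pow_ne_zero _ ht0)),
        mul_ne_zero this.2 (inv_ne_zero ht0)⟩
    · exact hB2 x hx
  let F : DA → (ℕ × ℕ → ℂ) := fun g => ((t ^ (w g))⁻¹ * t ^ ((K1 + 1) * K1 + K1)) •
    (fun ep : ℕ × ℕ => (t ^ ((K1 + 1) * ep.1 + ep.2))⁻¹ * ψ g ep)
  have hwt : ∀ ep ∈ DA ∪ DB, t ^ ((K1 + 1) * K1 + K1) * (t ^ ((K1 + 1) * ep.1 + ep.2))⁻¹ =
      t ^ w ep := by
    intro ep hep
    have h1 := hK1 ep hep
    rw [mul_inv_eq_iff_eq_mul₀ (pow_ne_zero _ ht0), ← pow_add]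
    congr 1
    simp only [w]
    have h2 : (K1 + 1) * K1 = (K1 + 1) * (K1 - ep.1) + (K1 + 1) * ep.1 := by
      rw [← Nat.mul_add]; congr 1; omega
    omega
  refine ⟨DA ⊕ ι, inferInstance, inferInstance, Sum.elim F φ, Sum.elim (fun g => g.1) e,
    ?_, ?_, ?_, ?_⟩
  · simp [h3]
  · rintro (g | i)
    · apply Submodule.smul_mem
      refine Phi_mono_of ?_ (mem_Phi_scal (t := t) (K1 + 1) (hψ1 g))
      intro x hx
      exact ⟨x.2, le_rfl, Multiset.mem_add.mpr (Or.inl hx)⟩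
    · refine Phi_mono_of ?_ (h4 i)
      intro x hx
      exact ⟨x.2, le_rfl, Multiset.mem_add.mpr (Or.inr hx)⟩
  · rintro (g | i)
    · exact Finset.mem_union_left _ g.2
    · exact Finset.mem_union_right _ (h5 i)
  · have hh : N.det.eval t = (N.map (Polynomial.evalRingHom t)).det := by
      rw [← Polynomial.coe_evalRingHom, RingHom.map_det]; rfl
    rw [hh] at htN
    have hF : ∀ (g : DA) (ep : ℕ × ℕ), ep ∈ DA ∪ DB → F g ep =
        (t ^ (w g))⁻¹ * t ^ (w ep) * ψ g ep := by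
      intro g ep hep
      rw [← hwt ep hep]
      simp only [F, Pi.smul_apply, smul_eq_mul]
      ring
    have hM : (Matrix.of fun i j => Sum.elim F φ i (Sum.elim (fun g : DA => g.1) e j)) =
        N.map (Polynomial.evalRingHom t) := by
     ext a b
     rcases a with g | i <;> rcases b with g' | j
     · simp only [Matrix.of_apply, Sum.elim_inl, N, Matrix.map_apply, Matrix.fromBlocks_apply₁₁, Am]
       rw [hF g g' (Finset.mem_union_left _ g'.2), hψ2 g g' g'.2]
       by_cases hgg : g = g'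
       · subst hgg
         simp [ht0]
       · rw [if_neg (fun h => hgg (Subtype.ext h.symm)), mul_zero, Matrix.one_apply_ne hgg]
         simp
     · simp only [Matrix.of_apply, Sum.elim_inl, Sum.elim_inr, N, Matrix.map_apply,
        Matrix.fromBlocks_apply₁₂, Bm, coe_evalRingHom, eval_mul, eval_C, eval_pow, eval_X]
       rw [hF g (e j) (Finset.mem_union_right _ (h5 j))]
       have := hw g g.2 (e j) (h5 j)
       rw [show t ^ w (e j) = t ^ (w (e j) - w g) * t ^ w g by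
         rw [← pow_add]; congr 1; omega]
       field_simp
     · simp [N, Cm]
     · simp [N, Em]
    rw [hM]
    exact htN

end Pool.Agent.helper89.Segre
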