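import Mathlib
import Pool.Agent.helper89.Segre2.Flip
import Pool.Agent.helper89.Segre2.Split
import Pool.Agent.helper89.Segre2.StripMain

set_option autoImplicit false

/-!
# Gluing a triangle and a strip
-/

namespace Pool.Agent.helper89.Segre

/-- the strip of width `H` in the triangle -/
def strip (H d : ℕ) : Finset (ℕ × ℕ) := box (d + 1) (fun b => min H (d + 1 - b))

lemma mem_strip {H d : ℕ} {e : ℕ × ℕ} : e ∈ strip H d ↔ e.1 < H ∧ e.1 + e.2 ≤ d := by
  unfold strip; rw [mem_box]; omega

lemma strip_full (d : ℕ) : strip (d + 1) d = tri d := by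
  ext e; rw [mem_strip, mem_tri]; omega

lemma glue {d n H NA NB : ℕ} (hn : d = n + 1 + H) {A B : Multiset ℕ}
    (hA1 : Good ℂ (tri (n + 1)) A NA) (hA2 : Good ℂ (tri n) A (tri n).card)
    (hB1 : Good ℂ (strip (H + 1) d) B NB) (hB2 : Good ℂ (strip H d) B (strip H d).card)
    (h1 : (tri n).card ≤ NA) (h2 : NA ≤ (tri (n + 1)).card)
    (h3 : (strip H d).card ≤ NB) (h4 : NB ≤ (strip (H + 1) d).card)
    (h5 : (tri d).card ≤ NA + NB) : Good ℂ (tri d) (A + B) (tri d).card := by
  classical
  -- the big triangle
  set U := (tri n).image (fun e => (e.1 + (H + 1), e.2)) with hU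
  have hmemU : ∀ e, e ∈ U ↔ H + 1 ≤ e.1 ∧ e.1 + e.2 ≤ d := by
    intro e
    rw [hU, Finset.mem_image]
    constructor
    · rintro ⟨f, hf, rfl⟩
      rw [mem_tri] at hf
      simp only
      omega
    · rintro ⟨h6, h7⟩
      refine ⟨(e.1 - (H + 1), e.2), ?_, ?_⟩
      · rw [mem_tri]; simp only; omega
      · ext <;> simp only <;> omega
  have hUcard : U.card = (tri n).card := by
    rw [hU]
    apply Finset.card_image_of_injective
    intro a b hab
    simp only [Prod.mk.injEq] at hab
    ext
    · omega
    · exact hab.2
  have hUp : (tri (n + 1)).image (fun e => (e.1 + H, e.2)) = U ∪ col H 0 (n + 2) := by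
    ext e
    rw [Finset.mem_image, Finset.mem_union, hmemU, mem_col]
    constructor
    · rintro ⟨f, hf, rfl⟩
      rw [mem_tri] at hf
      simp only
      omega
    · intro h6
      refine ⟨(e.1 - H, e.2), ?_, ?_⟩
      · rw [mem_tri]; simp only; omega
      · ext <;> simp only <;> omega
  have hdisjU : ∀ a b, Disjoint U (col H a b) := by
    intro a b
    rw [Finset.disjoint_left]
    intro e he he'
    have := (hmemU e).mp he
    have := mem_col.mp he'
    omega
  have hUpcard : (tri (n + 1)).card = (tri n).card + (n + 2) := by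
    have h6 : ((tri (n + 1)).image (fun e => (e.1 + H, e.2))).card = (tri (n + 1)).card := by
      apply Finset.card_image_of_injective
      intro a b hab
      simp only [Prod.mk.injEq] at hab
      ext
      · omega
      · exact hab.2
    rw [← h6, hUp, Finset.card_union_of_disjoint (hdisjU _ _), card_col, hUcard, Nat.sub_zero]
  -- the strip
  set W := strip H d with hW
  have hWp : strip (H + 1) d = W ∪ col H 0 (n + 2) := by
    ext e
    rw [Finset.mem_union, hW, mem_strip, mem_strip, mem_col]
    omega
  have hdisjW : ∀ a b, Disjoint W (col H a b) := by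
    intro a b
    rw [Finset.disjoint_left]
    intro e he he'
    have := mem_strip.mp he
    have := mem_col.mp he'
    omega
  have hWpcard : (strip (H + 1) d).card = W.card + (n + 2) := by
    rw [hWp, Finset.card_union_of_disjoint (hdisjW _ _), card_col, Nat.sub_zero]
  have hUW : Disjoint U W := by
    rw [Finset.disjoint_left]
    intro e he he'
    have := (hmemU e).mp he
    have := mem_strip.mp he'
    omega
  have htri : tri d = (U ∪ col H 0 (n + 2)) ∪ W := by
    ext e
    rw [Finset.mem_union, Finset.mem_union, hmemU, mem_col, hW, mem_strip, mem_tri]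
    omega
  have htricard : (tri d).card = (tri n).card + (n + 2) + W.card := by
    rw [htri, Finset.card_union_of_disjoint, Finset.card_union_of_disjoint (hdisjU _ _), card_col,
      hUcard, Nat.sub_zero]
    rw [Finset.disjoint_union_left]
    exact ⟨hUW, (hdisjW _ _).symm⟩
  -- the part `A`
  have gA1 := hA1.shift H
  rw [hUp] at gA1
  have gA2 := hA2.shift (H + 1)
  rw [← hU, ← hUcard] at gA2
  have gA := Good.interp (R := U) (H := H) (n := n + 2) (N := NA)
    (by
      intro i j j' h6 h7
      rw [hmemU] at h6 ⊢
      simp only at h6 ⊢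
      omega)
    (by
      intro e he
      have := (hmemU e).mp he
      omega) gA1 gA2 (by rw [hUcard]; exact h1) (by rw [hUcard, ← hUpcard]; exact h2)
  -- the part `B`
  rw [hWp] at hB1
  have gB := Good.interp (R := W) (H := H) (n := n + 2) (N := NB)
    (by
      intro i j j' h6 h7
      rw [hW, mem_strip] at h6 ⊢
      simp only at h6 ⊢
      omega)
    (by
      intro e he
      have := mem_strip.mp he
      omega) hB1 hB2 h3 (by rw [← hWpcard]; exact h4)
  have gB' := Good.flip (d := d) (by
    intro e he
    rw [htri]
    rcases Finset.mem_union.mp he with he | he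
    · exact Finset.mem_union_right _ he
    · apply Finset.mem_union_left
      apply Finset.mem_union_right
      rw [mem_col] at he ⊢
      omega) gB
  set bA := U.card + (n + 2) - NA with hbA
  have hBset : ((W ∪ col H (W.card + (n + 2) - NB) (n + 2)).image
      fun e => (e.1, d - e.1 - e.2)) = W ∪ col H 0 (NB - W.card) := by
    ext e
    rw [Finset.mem_image, Finset.mem_union, hW, mem_strip, mem_col]
    rw [hWpcard] at h4
    constructor
    · rintro ⟨f, hf, rfl⟩
      rw [Finset.mem_union, mem_strip, mem_col] at hf
      simp only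
      rw [← hW] at hf ⊢
      omega
    · intro h6
      refine ⟨(e.1, d - e.1 - e.2), ?_, ?_⟩
      · rw [Finset.mem_union, mem_strip, mem_col]
        simp only
        rw [← hW] at h6 ⊢
        omega
      · rw [← hW] at h6
        ext
        · rfl
        · simp only; omega
  rw [hBset] at gB'
  have hBsetcard : (W ∪ col H 0 (NB - W.card)).card = NB := by
    rw [Finset.card_union_of_disjoint (hdisjW _ _), card_col]; omega
  have gB2 : Good ℂ (W ∪ col H 0 (NB - W.card)) B (W ∪ col H 0 (NB - W.card)).card := by
    rw [hBsetcard]; exact gB'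
  have hsub : W ∪ col H 0 bA ⊆ W ∪ col H 0 (NB - W.card) := by
    intro e he
    rcases Finset.mem_union.mp he with he | he
    · exact Finset.mem_union_left _ he
    · apply Finset.mem_union_right
      rw [mem_col] at he ⊢
      rw [hWpcard] at h4
      rw [hUpcard] at h2
      omega
  have gB3 := gB2.of_subset hsub
  -- splitting
  have hAcard : (U ∪ col H bA (n + 2)).card = NA := by
    rw [Finset.card_union_of_disjoint (hdisjU _ _), card_col]; omega
  have gA3 : Good ℂ (U ∪ col H bA (n + 2)) A (U ∪ col H bA (n + 2)).card := by
    rw [hAcard]; exact gA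
  have := Good.split (DA := U ∪ col H bA (n + 2)) (DB := W ∪ col H 0 bA) (by
    intro e he e' he'
    rw [Finset.mem_union, hmemU, mem_col] at he
    rcases Finset.mem_union.mp he' with he' | he'
    · have := mem_strip.mp he'
      omega
    · rw [mem_col] at he'
      omega) gA3 gB3
  have hset : U ∪ col H bA (n + 2) ∪ (W ∪ col H 0 bA) = tri d := by
    have hmemW : ∀ e, e ∈ W ↔ e.1 < H ∧ e.1 + e.2 ≤ d := fun e => mem_strip
    rw [hUpcard] at h2
    have hbA' : bA ≤ n + 2 := by omega
    rw [htri]
    ext e
    simp only [Finset.mem_union, mem_col, hmemU, hmemW]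
    omega
  rw [hset, hAcard] at this
  have hBcard : (W ∪ col H 0 bA).card = W.card + bA := by
    rw [Finset.card_union_of_disjoint (hdisjW _ _), card_col, Nat.sub_zero]
  rw [hBcard] at this
  rwa [show NA + (W.card + bA) = (tri d).card by omega] at this

end Pool.Agent.helper89.Segre
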