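import Mathlib
import Pool.Agent.helper89.Segre.Results
import Pool.Agent.helper89.Segre2.Glue

set_option autoImplicit false

/-!
# Linear systems of large degree are non-special
-/

namespace Pool.Agent.helper89.Segre

/-- Removing a simple point lowers the rank by at most one. -/
lemma HasRank.drop_one {D : Finset (ℕ × ℕ)} {x : (ℂ × ℂ) × ℕ} (hx : x.2 = 1)
    {L : Multiset ((ℂ × ℂ) × ℕ)} {r : ℕ} (h : HasRank D (x ::ₘ L) r) : HasRank D L (r - 1) := by
  classical
  rw [hasRank_iff] at h
  rcases Nat.eq_zero_or_pos r with rfl | hr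
  · exact hasRank_zero D L
  rw [hasRank_iff]
  let g : (ℕ × ℕ → ℂ) →ₗ[ℂ] ℂ := ∑ e ∈ D, (pw x.1 e) • LinearMap.proj (R := ℂ) e
  have hg : ∀ c, g c = ∑ e ∈ D, c e * pw x.1 e := by
    intro c
    simp only [g, LinearMap.sum_apply, LinearMap.smul_apply, LinearMap.proj_apply, smul_eq_mul,
      mul_comm]
  let f : Kr D L →ₗ[ℂ] ℂ := g.domRestrict (Kr D L)
  have h1 := LinearMap.finrank_range_add_finrank_ker f
  have h2 : Module.finrank ℂ (LinearMap.range f) ≤ 1 := by
    have := Submodule.finrank_le (LinearMap.range f)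
    rwa [Module.finrank_self] at this
  have h3 : Module.finrank ℂ (LinearMap.ker f) ≤ Module.finrank ℂ (Kr D (x ::ₘ L)) := by
    have h4 : (LinearMap.ker f).map (Kr D L).subtype ≤ Kr D (x ::ₘ L) := by
      rintro _ ⟨c, hc, rfl⟩
      have hc' : g (c : ℕ × ℕ → ℂ) = 0 := hc
      rw [hg] at hc'
      have hcK := mem_Kr_iff.mp c.2
      rw [mem_Kr_iff]
      refine ⟨hcK.1, fun z hz ij hij => ?_⟩
      rcases Multiset.mem_cons.mp hz with rfl | hz
      · rw [hx, mem_idx] at hij
        have h5 : ij.1 = 0 := by omega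
        have h6 : ij.2 = 0 := by omega
        rw [h5, h6]
        simp only [Nat.choose_zero_right, Nat.cast_one, mul_one]
        exact hc'
      · exact hcK.2 z hz ij hij
    have h5 := Submodule.finrank_mono h4
    rwa [Submodule.finrank_map_subtype_eq] at h5
  omega

lemma Good.drop_one {D : Finset (ℕ × ℕ)} {ms : Multiset ℕ} {r : ℕ}
    (h : Good ℂ D (1 ::ₘ ms) r) : Good ℂ D ms (r - 1) := by
  classical
  obtain ⟨L, h1, h2, h3⟩ := h
  obtain ⟨x, hx, hx2, hx3⟩ := (Multiset.map_eq_cons _ _ _ _).mpr h1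
  refine ⟨L.erase x, hx3, fun z hz => h2 z (Multiset.mem_of_mem_erase hz), ?_⟩
  rw [← Multiset.cons_erase hx] at h3
  exact h3.drop_one hx2

lemma Good.drop {D : Finset (ℕ × ℕ)} {ms : Multiset ℕ} : ∀ (k : ℕ) {r : ℕ},
    Good ℂ D (ms + Multiset.replicate k 1) (r + k) → Good ℂ D ms r := by
  intro k
  induction k with
  | zero => intro r h; simpa using h
  | succ k ih =>
    intro r h
    apply ih
    rw [Multiset.replicate_succ, Multiset.add_cons] at h
    exact h.drop_one

/-- the largest elements of a multiset -/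
lemma pick (M : ℕ) : ∀ (n : ℕ) (L : Multiset ℕ), n ≤ Multiset.card L → (∀ x ∈ L, x ≤ M) →
    ∃ S L' : Multiset ℕ, L = S + L' ∧ Multiset.card S = n ∧
      (∀ a ∈ S, ∀ x ∈ L', x ≤ a) ∧ (∀ a ∈ S, a ≤ M) := by
  classical
  intro n
  induction n with
  | zero =>
    intro L _ _
    exact ⟨0, L, by simp, by simp, by simp, by simp⟩
  | succ n ih =>
    intro L hn hL
    have hne : L.toFinset.Nonempty := by
      rw [Finset.nonempty_iff_ne_empty]; intro h
      rw [Multiset.toFinset_eq_empty] at h
      subst h; simp at hn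
    set μ := L.toFinset.max' hne with hμ
    have hμL : μ ∈ L := Multiset.mem_toFinset.mp (Finset.max'_mem _ _)
    have hμmax : ∀ x ∈ L, x ≤ μ := fun x hx =>
      Finset.le_max' _ _ (Multiset.mem_toFinset.mpr hx)
    obtain ⟨L1, hL1⟩ := Multiset.exists_cons_of_mem hμL
    obtain ⟨S, L', h1, h2, h3, h4⟩ := ih L1 (by rw [hL1, Multiset.card_cons] at hn; omega)
      (fun x hx => hL x (by rw [hL1]; exact Multiset.mem_cons_of_mem hx))
    refine ⟨μ ::ₘ S, L', ?_, ?_, ?_, ?_⟩
    · rw [hL1, h1, Multiset.cons_add]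
    · rw [Multiset.card_cons, h2]
    · intro a ha x hx
      rcases Multiset.mem_cons.mp ha with rfl | ha
      · have hxL : x ∈ L := by
          rw [hL1, h1]
          exact Multiset.mem_cons_of_mem (Multiset.mem_add.mpr (Or.inr hx))
        exact hμmax x hxL
      · exact h3 a ha x hx
    · intro a ha
      rcases Multiset.mem_cons.mp ha with rfl | ha
      · exact hL _ hμL
      · exact h4 a ha

/-- greedy selection -/
lemma select (κ τ : ℕ) (S : Multiset ℕ) : ∀ s0, (∀ m ∈ S, kk m ≤ κ) → s0 < τ + κ →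
    τ ≤ s0 + (S.map kk).sum →
    ∃ A B : Multiset ℕ, S = A + B ∧ τ ≤ s0 + (A.map kk).sum ∧ s0 + (A.map kk).sum < τ + κ := by
  induction S using Multiset.induction_on with
  | empty =>
    intro s0 _ h1 h2
    exact ⟨0, 0, by simp, h2, by simpa using h1⟩
  | cons m S ih =>
    intro s0 hS h1 h2
    by_cases h3 : τ ≤ s0
    · exact ⟨0, m ::ₘ S, by simp, by simpa using h3, by simpa using h1⟩
    · rw [Multiset.map_cons, Multiset.sum_cons] at h2
      have hm := hS m (Multiset.mem_cons_self _ _)
      obtain ⟨A, B, h4, h5, h6⟩ := ih (s0 + kk m)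
        (fun x hx => hS x (Multiset.mem_cons_of_mem hx)) (by omega) (by omega)
      refine ⟨m ::ₘ A, B, by rw [h4, Multiset.cons_add], ?_, ?_⟩
      · rw [Multiset.map_cons, Multiset.sum_cons]; omega
      · rw [Multiset.map_cons, Multiset.sum_cons]; omega

lemma Sge_le (L : Multiset ℕ) (ν : ℕ) : Sge L ν ≤ (L.map kk).sum := by
  classical
  unfold Sge
  conv_rhs => rw [← Multiset.filter_add_not (fun x => ν ≤ x) L]
  rw [Multiset.map_add, Multiset.sum_add]
  omega

lemma Sge_add (A B : Multiset ℕ) (ν : ℕ) : Sge (A + B) ν = Sge A ν + Sge B ν := by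
  unfold Sge
  rw [Multiset.filter_add, Multiset.map_add, Multiset.sum_add]

lemma Sge_eq_zero {B : Multiset ℕ} {ν : ℕ} (h : ∀ m ∈ B, m < ν) : Sge B ν = 0 := by
  unfold Sge
  rw [Multiset.filter_eq_nil.mpr (fun a ha => by have := h a ha; omega)]
  simp

/-- the numbers of boxes -/
lemma cards {d n H : ℕ} (hn : d = n + 1 + H) :
    (tri (n + 1)).card = (tri n).card + (n + 2) ∧
    (strip (H + 1) d).card = (strip H d).card + (n + 2) ∧
    (tri d).card = (tri n).card + (n + 2) + (strip H d).card := by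
  classical
  set U := (tri n).image (fun e => (e.1 + (H + 1), e.2)) with hU
  have hmemU : ∀ e, e ∈ U ↔ H + 1 ≤ e.1 ∧ e.1 + e.2 ≤ d := by
    intro e
    rw [hU, Finset.mem_image]
    constructor
    · rintro ⟨f, hf, rfl⟩
      rw [mem_tri] at hf
      simp only
      omega
    · rintro ⟨h6, h7⟩
      refine ⟨(e.1 - (H + 1), e.2), ?_, ?_⟩
      · rw [mem_tri]; simp only; omega
      · ext
        · simp only; omega
        · rfl
  have hUcard : U.card = (tri n).card := by
    rw [hU]
    apply Finset.card_image_of_injective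
    intro a b hab
    simp only [Prod.mk.injEq] at hab
    ext
    · omega
    · exact hab.2
  have hmemW : ∀ e, e ∈ strip H d ↔ e.1 < H ∧ e.1 + e.2 ≤ d := fun e => mem_strip
  have h1 : (tri (n + 1)).card = (tri n).card + (n + 2) := by
    rw [card_tri, card_tri, show n + 1 + 2 = (n + 2) + 1 by ring, Nat.choose_succ_succ' (n + 2) 1,
      Nat.choose_one_right]
    ring
  have h2 : (strip (H + 1) d).card = (strip H d).card + (n + 2) := by
    have h3 : strip (H + 1) d = strip H d ∪ col H 0 (n + 2) := by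
      ext e
      rw [Finset.mem_union, mem_strip, mem_strip, mem_col]
      omega
    have h4 : Disjoint (strip H d) (col H 0 (n + 2)) := by
      rw [Finset.disjoint_left]
      intro e he he'
      have := mem_strip.mp he
      have := mem_col.mp he'
      omega
    rw [h3, Finset.card_union_of_disjoint h4, card_col, Nat.sub_zero]
  refine ⟨h1, h2, ?_⟩
  have h3 : tri d = U ∪ strip (H + 1) d := by
    ext e
    rw [Finset.mem_union, hmemU, mem_strip, mem_tri]
    omega
  have h4 : Disjoint U (strip (H + 1) d) := by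
    rw [Finset.disjoint_left]
    intro e he he'
    have := (hmemU e).mp he
    have := mem_strip.mp he'
    omega
  rw [h3, Finset.card_union_of_disjoint h4, h2, hUcard]
  omega

lemma sum_kk_le {S : Multiset ℕ} {M : ℕ} (h : ∀ m ∈ S, m ≤ M) :
    (S.map kk).sum ≤ Multiset.card S * kk M := by
  have := Multiset.sum_le_card_nsmul (S.map kk) (kk M) (by
    intro x hx
    obtain ⟨a, ha, rfl⟩ := Multiset.mem_map.mp hx
    exact kk_mono (h a ha))
  rwa [Multiset.card_map, smul_eq_mul] at this

/-- independence -/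
lemma good_indep {H d M : ℕ} (Bg Sm : Multiset ℕ) (hSm : ∀ m ∈ Sm, m ≤ M) (hMH : M ≤ H)
    (hBg : ∀ ν ∈ Bg, M < ν ∧ ν ≤ H ∧ Sge Bg ν + 2 * ν * (ν - 1) < (strip H d).card)
    (hsum : (Bg.map kk).sum + (Sm.map kk).sum + 2 * M * (M - 1) < (strip H d).card) :
    Good ℂ (strip H d) (Bg + Sm) ((Bg.map kk).sum + (Sm.map kk).sum) := by
  have hall : ∀ m ∈ Bg + Sm, m ≤ H := by
    intro m hm
    rcases Multiset.mem_add.mp hm with hm | hm
    · exact (hBg m hm).2.1
    · exact (hSm m hm).trans hMH
  have := good_mainH (K := ℂ) H d _ H (fun b => min H (d + 1 - b)) (Bg + Sm) le_rfl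
    (InvH.init H d H) hall hall (by
      intro ν hν _
      change _ < (strip H d).card
      rw [Sge_add]
      rcases Multiset.mem_add.mp hν with hν | hν
      · have h1 := hBg ν hν
        have h2 : Sge Sm ν = 0 := Sge_eq_zero fun m hm => by
          have := hSm m hm
          omega
        omega
      · have h1 := Sge_le Bg ν
        have h2 := Sge_le Sm ν
        have h3 := hSm ν hν
        have h4 : 2 * ν * (ν - 1) ≤ 2 * M * (M - 1) :=
          Nat.mul_le_mul (Nat.mul_le_mul_left _ h3) (Nat.sub_le_sub_right h3 1)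
        omega)
  rw [Multiset.map_add, Multiset.sum_add] at this
  exact this

/-- emptiness -/
lemma good_reserve {H d M : ℕ} (hM : 0 < M) (Bg Sm : Multiset ℕ) (hSm : ∀ m ∈ Sm, m ≤ M)
    (hMH : M ≤ H)
    (hBg : ∀ ν ∈ Bg, M < ν ∧ ν ≤ H ∧ Sge Bg ν + 2 * ν * (ν - 1) < (strip H d).card)
    (hsum : (strip H d).card + 5 * kk M ≤ (Bg.map kk).sum + (Sm.map kk).sum)
    (hsmall : 5 * kk M ≤ (Sm.map kk).sum) :
    Good ℂ (strip H d) (Bg + Sm) (strip H d).card := by
  have hκ : 0 < kk M := Nat.choose_pos (by omega)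
  have hcard : 5 ≤ Multiset.card Sm := by
    have := sum_kk_le hSm
    exact Nat.le_of_mul_le_mul_right (hsmall.trans this) hκ
  obtain ⟨S, L', hSL, hS5, hSx, hSM⟩ := pick M 5 _ hcard hSm
  have hSsum := sum_kk_le hSM
  rw [hS5] at hSsum
  have hsumS : (Sm.map kk).sum = (S.map kk).sum + (L'.map kk).sum := by
    rw [hSL, Multiset.map_add, Multiset.sum_add]
  have hL'M : ∀ m ∈ L', m ≤ M := fun m hm => hSm m (by
    rw [hSL]; exact Multiset.mem_add.mpr (Or.inr hm))
  obtain ⟨a1, S1, rfl, hS4⟩ := exists_cons hS5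
  obtain ⟨a2, S2, rfl, hS3⟩ := exists_cons hS4
  obtain ⟨a3, S3, rfl, hS2⟩ := exists_cons hS3
  obtain ⟨a4, S4, rfl, hS1⟩ := exists_cons hS2
  obtain ⟨a5, rfl⟩ := Multiset.card_eq_one.mp hS1
  have hall : ∀ m ∈ Bg + L', m ≤ H := by
    intro m hm
    rcases Multiset.mem_add.mp hm with hm | hm
    · exact (hBg m hm).2.1
    · exact (hL'M m hm).trans hMH
  have := good_emptyH (K := ℂ) H d a1 a2 a3 a4 a5 _ H (fun b => min H (d + 1 - b)) (Bg + L') le_rfl
    (InvH.init H d H) hall hall (by
      intro x hx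
      rcases Multiset.mem_add.mp hx with hx | hx
      · right
        change _ < (strip H d).card
        rw [Sge_add]
        have h1 := hBg x hx
        have h2 : Sge L' x = 0 := Sge_eq_zero fun m hm => by
          have := hL'M m hm
          omega
        omega
      · left
        refine ⟨hSx a1 (by simp) x hx, hSx a2 (by simp) x hx, hSx a3 (by simp) x hx,
          hSx a4 (by simp) x hx, hSx a5 (by simp) x hx⟩)
      (by
        change (strip H d).card ≤ _
        rw [Multiset.map_add, Multiset.sum_add]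
        omega)
  change Good ℂ (strip H d) _ (strip H d).card at this
  rw [hSL, add_left_comm]
  exact this

/-- The critical case. -/
lemma critical {d n M : ℕ} (hn : d = n + 1 + M) (hM : 0 < M) (hd : 11 * kk M ≤ n + 3)
    (Bg Sm : Multiset ℕ) (hSm : ∀ m ∈ Sm, m ≤ M)
    (hBg : ∀ ν ∈ Bg, M < ν ∧ Sge Bg ν + 2 * ν * (ν - 1) < (tri n).card)
    (h1 : (tri d).card ≤ (Bg.map kk).sum + (Sm.map kk).sum)
    (h2 : (Bg.map kk).sum + (Sm.map kk).sum < (tri d).card + kk M) :
    Good ℂ (tri d) (Bg + Sm) (tri d).card := by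
  obtain ⟨c1, c2, c3⟩ := cards hn
  have hκ : 0 < kk M := Nat.choose_pos (by omega)
  have hκM := two_mul_kk M
  have h2M : 2 * M * (M - 1) + 2 * M = 2 * (M * M) := by
    obtain ⟨t, rfl⟩ := Nat.exists_eq_add_of_le' hM
    simp only [Nat.add_sub_cancel]; ring
  have hMn : M ≤ n := by
    have h3 : M ≤ M * M := Nat.le_mul_of_pos_left M hM
    omega
  -- the sum of the big ones
  have hBgsum : (Bg.map kk).sum < (tri n).card := by
    rcases eq_or_ne Bg 0 with rfl | hne
    · simp only [Multiset.map_zero, Multiset.sum_zero]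
      rw [card_tri]
      exact Nat.choose_pos (by omega)
    · classical
      have hne' : Bg.toFinset.Nonempty := by
        rw [Finset.nonempty_iff_ne_empty]; intro h; exact hne (Multiset.toFinset_eq_empty.mp h)
      have h3 := hBg _ (Multiset.mem_toFinset.mp (Finset.min'_mem _ hne'))
      have h4 : Sge Bg (Bg.toFinset.min' hne') = (Bg.map kk).sum := by
        unfold Sge
        rw [Multiset.filter_eq_self.mpr]
        intro a ha
        exact Finset.min'_le _ _ (Multiset.mem_toFinset.mpr ha)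
      omega
  have hBgn : ∀ ν ∈ Bg, ν ≤ n := by
    intro ν hν
    have h3 := (hBg ν hν).2
    have h4 := Sge_ge_of_mem hν
    rw [card_tri] at h3
    by_contra hcon
    have h5 : kk (n + 1) ≤ kk ν := kk_mono (by omega)
    have h6 : kk (n + 1) = (n + 2).choose 2 := rfl
    omega
  obtain ⟨A, B, hAB, h3, h4⟩ := select (kk M) ((tri n).card + 5 * kk M) Sm (Bg.map kk).sum
    (fun m hm => kk_mono (hSm m hm)) (by omega) (by omega)
  have hsum : (Sm.map kk).sum = (A.map kk).sum + (B.map kk).sum := by
    rw [hAB, Multiset.map_add, Multiset.sum_add]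
  have hA : ∀ m ∈ A, m ≤ M := fun m hm => hSm m (by
    rw [hAB]; exact Multiset.mem_add.mpr (Or.inl hm))
  have hB : ∀ m ∈ B, m ≤ M := fun m hm => hSm m (by
    rw [hAB]; exact Multiset.mem_add.mpr (Or.inr hm))
  have hs1 := strip_full (n + 1)
  have hs2 := strip_full n
  have gA1 := good_indep (H := n + 2) (d := n + 1) Bg A hA (by omega) (by
    intro ν hν
    have h5 := hBg ν hν
    have h6 := hBgn ν hν
    rw [hs1]
    omega) (by rw [hs1]; omega)
  rw [hs1] at gA1
  have gA2 := good_reserve (H := n + 1) (d := n) hM Bg A hA (by omega) (by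
    intro ν hν
    have h5 := hBg ν hν
    have h6 := hBgn ν hν
    rw [hs2]
    omega) (by rw [hs2]; omega) (by omega)
  rw [hs2] at gA2
  have gB1 := good_indep (H := M + 1) (d := d) 0 B hB (by omega) (by simp) (by
    rw [c2, Multiset.map_zero, Multiset.sum_zero]
    omega)
  have gB2 := good_reserve (H := M) (d := d) hM 0 B hB (by omega) (by simp) (by
    rw [Multiset.map_zero, Multiset.sum_zero]
    omega) (by omega)
  rw [zero_add, Multiset.map_zero, Multiset.sum_zero, zero_add] at gB1
  rw [zero_add] at gB2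
  have := glue hn gA1 gA2 gB1 gB2 (by omega) (by omega) (by omega) (by omega) (by omega)
  rwa [add_assoc, ← hAB] at this

/-- Many conditions: full rank. -/
lemma good_over {d n M : ℕ} (hn : d = n + 1 + M) (hM : 0 < M) (hd : 11 * kk M ≤ n + 3)
    (Bg : Multiset ℕ) (hBg : ∀ ν ∈ Bg, M < ν ∧ Sge Bg ν + 2 * ν * (ν - 1) < (tri n).card)
    (Sm : Multiset ℕ) : (∀ m ∈ Sm, m ≤ M) →
    (tri d).card ≤ (Bg.map kk).sum + (Sm.map kk).sum →
    Good ℂ (tri d) (Bg + Sm) (tri d).card := by
  induction Sm using Multiset.induction_on with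
  | empty =>
    intro h1 h2
    by_cases h3 : (Bg.map kk).sum + ((0 : Multiset ℕ).map kk).sum < (tri d).card + kk M
    · exact critical hn hM hd Bg 0 h1 hBg h2 h3
    · exfalso
      obtain ⟨c1, c2, c3⟩ := cards hn
      rcases eq_or_ne Bg 0 with rfl | hne
      · simp only [Multiset.map_zero, Multiset.sum_zero] at h2
        rw [card_tri] at h2
        have := Nat.choose_pos (show 2 ≤ d + 2 by omega)
        omega
      · classical
        have hne' : Bg.toFinset.Nonempty := by
          rw [Finset.nonempty_iff_ne_empty]; intro h; exact hne (Multiset.toFinset_eq_empty.mp h)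
        have h3 := hBg _ (Multiset.mem_toFinset.mp (Finset.min'_mem _ hne'))
        have h4 : Sge Bg (Bg.toFinset.min' hne') = (Bg.map kk).sum := by
          unfold Sge
          rw [Multiset.filter_eq_self.mpr]
          intro a ha
          exact Finset.min'_le _ _ (Multiset.mem_toFinset.mpr ha)
        simp only [Multiset.map_zero, Multiset.sum_zero] at h2
        omega
  | cons m Sm ih =>
    intro h1 h2
    by_cases h3 : (Bg.map kk).sum + ((m ::ₘ Sm).map kk).sum < (tri d).card + kk M
    · exact critical hn hM hd Bg (m ::ₘ Sm) h1 hBg h2 h3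
    · rw [Multiset.map_cons, Multiset.sum_cons] at h3
      have hm := kk_mono (h1 m (Multiset.mem_cons_self _ _))
      rw [Multiset.add_cons]
      exact (ih (fun x hx => h1 x (Multiset.mem_cons_of_mem hx)) (by omega)).cons m

/-- The multiset form of the theorem. -/
theorem good_large {d M : ℕ} (hM : 0 < M) (hd : 11 * kk M + M ≤ d + 2)
    (S : Multiset ℕ) (hbig : ∀ ν ∈ S, M < ν →
      Sge S ν + 2 * ν * (ν - 1) < (d - M + 1).choose 2) :
    Good ℂ (tri d) S (min (S.map kk).sum (tri d).card) := by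
  classical
  have hκ : 0 < kk M := Nat.choose_pos (by omega)
  obtain ⟨n, hn⟩ : ∃ n, d = n + 1 + M := ⟨d - 1 - M, by omega⟩
  have hd' : 11 * kk M ≤ n + 3 := by omega
  have hnt : (d - M + 1).choose 2 = (tri n).card := by
    rw [card_tri]; congr 1; omega
  rw [hnt] at hbig
  set Bg := S.filter (fun x => M < x) with hBgdef
  set Sm := S.filter (fun x => ¬ M < x) with hSmdef
  have hS : Bg + Sm = S := Multiset.filter_add_not _ _
  have hSm : ∀ m ∈ Sm, m ≤ M := fun m hm => by
    have := (Multiset.mem_filter.mp hm).2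
    omega
  have hBg : ∀ ν ∈ Bg, M < ν ∧ Sge Bg ν + 2 * ν * (ν - 1) < (tri n).card := by
    intro ν hν
    have h1 := Multiset.mem_filter.mp hν
    have h2 := hbig ν h1.1 h1.2
    rw [← hS, Sge_add] at h2
    exact ⟨h1.2, by omega⟩
  have hsum : (S.map kk).sum = (Bg.map kk).sum + (Sm.map kk).sum := by
    rw [← hS, Multiset.map_add, Multiset.sum_add]
  rcases le_total (tri d).card (S.map kk).sum with h | h
  · rw [min_eq_right h, ← hS]
    exact good_over hn hM hd' Bg hBg Sm hSm (by omega)
  · rw [min_eq_left h]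
    set k := (tri d).card - (S.map kk).sum with hk
    apply Good.drop k
    have h1 : (S.map kk).sum + k = (tri d).card := by omega
    rw [h1, ← hS, add_assoc]
    apply good_over hn hM hd' Bg hBg
    · intro m hm
      rcases Multiset.mem_add.mp hm with hm | hm
      · exact hSm m hm
      · rw [Multiset.eq_of_mem_replicate hm]; exact hM
    · rw [Multiset.map_add, Multiset.sum_add, Multiset.map_replicate, Multiset.sum_replicate]
      have : kk 1 = 1 := rfl
      rw [this, smul_eq_mul]
      omega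

open MvPolynomial in
theorem largeDegree (d h M : ℕ) (m : Fin h → ℕ) (hM : 0 < M)
    (hd : 11 * (M + 1).choose 2 + M ≤ d + 2)
    (H : ∀ i, M < m i →
      ∑ j with m i ≤ m j, (m j + 1).choose 2 + 2 * m i * (m i - 1) < (d - M + 1).choose 2) :
    ∃ Q : MvPolynomial (Fin h × Fin 3) ℂ, Q ≠ 0 ∧ ∀ p : Fin h → Fin 3 → ℂ,
      eval (fun ij : Fin h × Fin 3 => p ij.1 ij.2) Q ≠ 0 →
      Module.finrank ℂ (sys d h m p) = (d + 2).choose 2 - ∑ k, (m k + 1).choose 2 := by
  apply generic_of_good
  have := good_large (d := d) hM hd (Finset.univ.val.map m) (by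
    intro ν hν h2
    obtain ⟨i, _, rfl⟩ := Multiset.mem_map.mp hν
    rw [sge_eq]
    exact H i h2)
  rwa [sumkk_eq, card_tri] at this

end Pool.Agent.helper89.Segre
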